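import Pool.Agent.R406.PalMain

/-! # Counting classes of factors up to reversal -/

namespace Pool.Agent.R406.Pal

variable {α : Type*}

theorem hk_of_list {u : ℕ → α} {K : ℕ}
    (h : ∀ w ∈ lang u, w.reverse = w → K ≤ w.length → ∀ v ∈ lang u,
      IsCompleteReturn w v → v.reverse = v) : HK u K := by
  intro i m hKm hpal i' hi he hno
  have hv : (fac u i (i' - i + m)).reverse = fac u i (i' - i + m) := by
    refine h (fac u i m) (fac_mem u i m) ((fac_rev_iff u i m).2 hpal)
      (by rw [fac_length]; exact hKm) _ (fac_mem u i _) ⟨?_, ?_⟩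
    · rw [fac_length, fac_length]; omega
    · ext j
      simp only [occ, fac_length, Set.mem_ofPred_eq, Set.mem_insert_iff, Set.mem_singleton_iff]
      constructor
      · rintro ⟨h1, h2⟩
        rw [fac_drop_take u i _ j m h1, fac_eq_iff] at h2
        by_contra hcon
        push Not at hcon
        exact hno (i + j) (by omega) (by omega) h2.symm
      · rintro (h1 | h1)
        · subst h1
          refine ⟨by omega, ?_⟩
          rw [fac_drop_take u i _ 0 m (by omega)]
          rfl
        · subst h1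
          refine ⟨by omega, ?_⟩
          rw [fac_drop_take u i _ _ m (by omega), fac_eq_iff]
          rw [show i + (i' - i + m - m) = i' by omega]
          exact he.symm
  rw [fac_rev_iff] at hv
  rwa [show i + (i' - i + m) = i' + m by omega] at hv

theorem mark_of_inf [Finite α] {u : ℕ → α} (hrev : ClosedRev u)
    (hinf : {w | w ∈ lang u ∧ w.reverse = w}.Infinite) (K : ℕ) :
    ∀ E, ∃ i m, (m = K ∨ m = K + 1) ∧ PalI u i (i + m) ∧ E < i + m := by
  intro E
  obtain ⟨w, hw, hw2⟩ := hinf.exists_notMem_finite (List.finite_length_le α K)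
  obtain ⟨⟨i, n, rfl⟩, hpal⟩ := hw
  simp only [Set.mem_ofPred_eq, fac_length, not_le] at hw2
  rw [fac_rev_iff] at hpal
  obtain ⟨j, M', hj⟩ := hrev _ (fac_mem u 0 (i + n + E + 1))
  have hM : i + n + E + 1 = M' := by
    have := congrArg List.length hj
    rwa [List.length_reverse, fac_length, fac_length] at this
  subst hM
  rw [fac_rev_eq_iff] at hj
  have hp : PalI u (j + E + 1) (j + E + 1 + n) := by
    refine EqW.pal (i := i) ?_ hpal
    intro a ha
    have h1 := hj (E + 1 + a) (by omega)
    rw [show j + E + 1 + a = j + (E + 1 + a) by omega, ← h1, hpal (i + a) (by omega) (by omega)]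
    congr 1
    omega
  obtain ⟨m, hm, r, hr⟩ : ∃ m, (m = K ∨ m = K + 1) ∧ ∃ r, n = m + 2 * r := by
    rcases Nat.even_or_odd (n - K) with h | h
    · obtain ⟨r, hr⟩ := h
      exact ⟨K, Or.inl rfl, r, by omega⟩
    · obtain ⟨r, hr⟩ := h
      exact ⟨K + 1, Or.inr rfl, r, by omega⟩
  refine ⟨j + E + 1 + r, m, hm, ?_, by omega⟩
  exact hp.sub (by omega) (by omega) (by omega)

section count

/-- the class of a word up to reversal -/
def cls (w : List α) : Sym2 (List α) := s(w, w.reverse)

theorem cls_eq_iff (x w : List α) : cls x = cls w ↔ x = w ∨ x = w.reverse := by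
  unfold cls
  rw [Sym2.eq_iff]
  constructor
  · rintro (⟨h1, _⟩ | ⟨h1, _⟩)
    · exact Or.inl h1
    · exact Or.inr h1
  · rintro (h | h)
    · subst h; exact Or.inl ⟨rfl, rfl⟩
    · subst h; exact Or.inr ⟨rfl, by rw [List.reverse_reverse]⟩

open Classical in
theorem card_cls (S : Finset (List α)) (hS : ∀ w ∈ S, w.reverse ∈ S) :
    S.card + (S.filter fun w => w.reverse = w).card = 2 * (S.image cls).card := by
  have h1 : S.card = ∑ b ∈ S.image cls, (S.filter fun x => cls x = b).card :=
    Finset.card_eq_sum_card_image _ _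
  have h2 : (S.filter fun w => w.reverse = w).card =
      ∑ b ∈ S.image cls, ((S.filter fun w => w.reverse = w).filter fun x => cls x = b).card := by
    apply Finset.card_eq_sum_card_fiberwise
    intro x hx
    have hx' : x ∈ S.filter fun w => w.reverse = w := hx
    rw [Finset.mem_filter] at hx'
    exact Finset.mem_coe.2 (Finset.mem_image_of_mem _ hx'.1)
  rw [h1, h2, ← Finset.sum_add_distrib, mul_comm, ← smul_eq_mul, ← Finset.sum_const]
  apply Finset.sum_congr rfl
  intro b hb
  obtain ⟨w, hw, rfl⟩ := Finset.mem_image.1 hb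
  by_cases hp : w.reverse = w
  · have e1 : (S.filter fun x => cls x = cls w) = {w} := by
      ext x
      simp only [Finset.mem_filter, cls_eq_iff, hp, or_self, Finset.mem_singleton]
      constructor
      · exact fun h => h.2
      · rintro rfl; exact ⟨hw, rfl⟩
    have e2 : ((S.filter fun w => w.reverse = w).filter fun x => cls x = cls w) = {w} := by
      ext x
      simp only [Finset.mem_filter, cls_eq_iff, hp, or_self, Finset.mem_singleton]
      constructor
      · exact fun h => h.2
      · rintro rfl; exact ⟨⟨hw, hp⟩, rfl⟩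
    rw [e1, e2]; simp
  · have e1 : (S.filter fun x => cls x = cls w) = {w, w.reverse} := by
      ext x
      simp only [Finset.mem_filter, cls_eq_iff, Finset.mem_insert, Finset.mem_singleton]
      constructor
      · exact fun h => h.2
      · rintro (rfl | rfl)
        · exact ⟨hw, Or.inl rfl⟩
        · exact ⟨hS _ hw, Or.inr rfl⟩
    have e2 : ((S.filter fun w => w.reverse = w).filter fun x => cls x = cls w) = ∅ := by
      ext x
      simp only [Finset.mem_filter, cls_eq_iff, Finset.notMem_empty, iff_false]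
      rintro ⟨⟨_, h1⟩, (rfl | rfl)⟩
      · exact hp h1
      · rw [List.reverse_reverse] at h1; exact hp h1.symm
    rw [e1, e2, Finset.card_pair (fun h => hp h.symm)]; simp

/-- the finite set of factors of length `n` -/
noncomputable def W [Finite α] (u : ℕ → α) (n : ℕ) : Finset (List α) :=
  Set.Finite.toFinset (s := {w | w ∈ lang u ∧ w.length = n})
    ((List.finite_length_eq α n).subset (fun _ h => h.2))

theorem mem_W [Finite α] {u : ℕ → α} {n : ℕ} {w : List α} :
    w ∈ W u n ↔ ∃ t, w = fac u t n := by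
  simp only [W, Set.Finite.mem_toFinset, Set.mem_ofPred_eq]
  constructor
  · rintro ⟨⟨i, m, rfl⟩, h⟩
    rw [fac_length] at h
    subst h
    exact ⟨i, rfl⟩
  · rintro ⟨t, rfl⟩
    exact ⟨fac_mem u t n, fac_length u t n⟩

theorem facCount_eq [Finite α] (u : ℕ → α) (n : ℕ) : facCount u n = (W u n).card :=
  Set.ncard_eq_toFinset_card _ _

open Classical in
theorem palCount_eq [Finite α] (u : ℕ → α) (n : ℕ) :
    palCount u n = ((W u n).filter fun w => w.reverse = w).card := by
  unfold palCount
  rw [← Set.ncard_coe_finset]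
  congr 1
  ext w
  simp only [Set.mem_ofPred_eq, Finset.coe_filter, W, Set.Finite.mem_toFinset]
  tauto

open Classical in
/-- the classes of factors of length `n` -/
noncomputable def V [Finite α] (u : ℕ → α) (n : ℕ) : Finset (Sym2 (List α)) := (W u n).image cls

open Classical in
/-- the classes of non-palindromic factors of length `n + 1` -/
noncomputable def Ed [Finite α] (u : ℕ → α) (n : ℕ) : Finset (Sym2 (List α)) :=
  ((W u (n + 1)).filter fun w => ¬ w.reverse = w).image cls

theorem W_rev [Finite α] {u : ℕ → α} (hrev : ClosedRev u) (n : ℕ) :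
    ∀ w ∈ W u n, w.reverse ∈ W u n := by
  intro w hw
  obtain ⟨t, rfl⟩ := mem_W.1 hw
  obtain ⟨j, m, h⟩ := hrev _ (fac_mem u t n)
  have := congrArg List.length h
  rw [List.length_reverse, fac_length, fac_length] at this
  subst this
  exact mem_W.2 ⟨j, h⟩

/-- `T(n) = 2 (|E| + 1 - |V|)` -/
theorem T_eq [Finite α] {u : ℕ → α} (hrev : ClosedRev u) (n : ℕ) :
    T u n = 2 * ((Ed u n).card + 1 - (V u n).card : ℤ) := by
  classical
  have h1 := card_cls (W u n) (W_rev hrev n)
  have h2 := card_cls ((W u (n + 1)).filter fun w => ¬ w.reverse = w) (by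
    intro w hw
    rw [Finset.mem_filter] at hw ⊢
    refine ⟨W_rev hrev (n + 1) w hw.1, ?_⟩
    rw [List.reverse_reverse]
    exact fun h => hw.2 h.symm)
  have h3 : (((W u (n + 1)).filter fun w => ¬ w.reverse = w).filter
      fun w => w.reverse = w) = ∅ := by
    ext w; simp only [Finset.mem_filter, Finset.notMem_empty, iff_false]
    rintro ⟨⟨_, h⟩, h'⟩
    exact h h'
  have h4 := Finset.card_filter_add_card_filter_not (s := W u (n + 1))
    (fun w => w.reverse = w)
  rw [h3, Finset.card_empty, add_zero] at h2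
  unfold T
  rw [facCount_eq, facCount_eq, palCount_eq, palCount_eq]
  change _ = 2 * ((((W u (n + 1)).filter fun w => ¬ w.reverse = w).image cls).card + 1 -
    ((W u n).image cls).card : ℤ)
  zify at h1 h2 h4
  linarith

theorem cls_fac_mem_V [Finite α] (u : ℕ → α) (n t : ℕ) : cls (fac u t n) ∈ V u n := by
  classical
  exact Finset.mem_image_of_mem _ (mem_W.2 ⟨t, rfl⟩)

theorem mem_V [Finite α] {u : ℕ → α} {n : ℕ} {ν : Sym2 (List α)} :
    ν ∈ V u n ↔ ∃ t, cls (fac u t n) = ν := by
  classical
  unfold V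
  rw [Finset.mem_image]
  constructor
  · rintro ⟨w, hw, rfl⟩
    obtain ⟨t, rfl⟩ := mem_W.1 hw
    exact ⟨t, rfl⟩
  · rintro ⟨t, rfl⟩
    exact ⟨_, mem_W.2 ⟨t, rfl⟩, rfl⟩

theorem mem_Ed [Finite α] {u : ℕ → α} {n : ℕ} {ε : Sym2 (List α)} :
    ε ∈ Ed u n ↔ ∃ t, (¬ PalI u t (t + (n + 1))) ∧ cls (fac u t (n + 1)) = ε := by
  classical
  unfold Ed
  rw [Finset.mem_image]
  constructor
  · rintro ⟨w, hw, rfl⟩
    rw [Finset.mem_filter] at hw
    obtain ⟨t, rfl⟩ := mem_W.1 hw.1
    refine ⟨t, ?_, rfl⟩
    rw [← fac_rev_iff]; exact hw.2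
  · rintro ⟨t, h, rfl⟩
    refine ⟨_, Finset.mem_filter.2 ⟨mem_W.2 ⟨t, rfl⟩, ?_⟩, rfl⟩
    rw [fac_rev_iff]; exact h

/-- relation of classes in terms of positions -/
theorem cls_fac_iff (u : ℕ → α) (n i k : ℕ) :
    cls (fac u i n) = cls (fac u k n) ↔ EqW u i k n ∨ ∀ a < n, u (k + (n - 1 - a)) = u (i + a) := by
  rw [cls_eq_iff, fac_eq_iff]
  constructor
  · rintro (h | h)
    · exact Or.inl h
    · exact Or.inr ((fac_rev_eq_iff u k i n).1 h.symm)
  · rintro (h | h)
    · exact Or.inl h
    · exact Or.inr ((fac_rev_eq_iff u k i n).2 h).symm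

open Classical in
/-- the first arrival edge of a vertex class -/
noncomputable def arr (u : ℕ → α) (n : ℕ) (ν : Sym2 (List α)) : Sym2 (List α) :=
  if h : ∃ t, cls (fac u t n) = ν then cls (fac u (Nat.find h - 1) (n + 1)) else cls []

theorem arr_mem [Finite α] {u : ℕ → α} {n : ℕ} {ν : Sym2 (List α)}
    (hν : ν ∈ V u n) (h0 : ν ≠ cls (fac u 0 n)) : arr u n ν ∈ Ed u n := by
  classical
  have h := mem_V.1 hν
  unfold arr
  rw [dif_pos h]
  have hpos : 0 < Nat.find h := by
    rw [Nat.pos_iff_ne_zero]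
    intro hz
    have := Nat.find_spec h
    rw [hz] at this
    exact h0 this.symm
  rw [mem_Ed]
  refine ⟨Nat.find h - 1, ?_, rfl⟩
  intro hp
  have hlt : Nat.find h - 1 < Nat.find h := by omega
  have hmin := Nat.find_min h hlt
  apply hmin
  refine Eq.trans ?_ (Nat.find_spec h)
  rw [cls_fac_iff]
  right
  intro a ha
  rw [hp (Nat.find h - 1 + a) (by omega) (by omega)]
  congr 1
  omega

theorem arr_inj [Finite α] {u : ℕ → α} {n : ℕ} {ν1 ν2 : Sym2 (List α)}
    (h1 : ν1 ∈ V u n) (h10 : ν1 ≠ cls (fac u 0 n)) (h2 : ν2 ∈ V u n)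
    (h20 : ν2 ≠ cls (fac u 0 n)) (he : arr u n ν1 = arr u n ν2) : ν1 = ν2 := by
  classical
  have key : ∀ μ1 μ2 : Sym2 (List α), ∀ (e1 : ∃ t, cls (fac u t n) = μ1)
      (e2 : ∃ t, cls (fac u t n) = μ2), 0 < Nat.find e1 → Nat.find e1 < Nat.find e2 →
      cls (fac u (Nat.find e1 - 1) (n + 1)) = cls (fac u (Nat.find e2 - 1) (n + 1)) → False := by
    intro μ1 μ2 e1 e2 hp hlt hcls
    rw [cls_fac_iff] at hcls
    rcases hcls with hc | hc
    · apply Nat.find_min e2 hlt
      refine Eq.trans ?_ (Nat.find_spec e2)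
      rw [cls_fac_iff]
      left
      intro a ha
      have := hc (a + 1) (by omega)
      rw [show Nat.find e1 - 1 + (a + 1) = Nat.find e1 + a by omega,
        show Nat.find e2 - 1 + (a + 1) = Nat.find e2 + a by omega] at this
      exact this
    · have hlt' : Nat.find e1 - 1 < Nat.find e2 := by omega
      apply Nat.find_min e2 hlt'
      refine Eq.trans ?_ (Nat.find_spec e2)
      rw [cls_fac_iff]
      right
      intro a ha
      have := hc a (by omega)
      rw [← this]
      congr 1
      omega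
  have e1 := mem_V.1 h1
  have e2 := mem_V.1 h2
  have p1 : 0 < Nat.find e1 := by
    rw [Nat.pos_iff_ne_zero]
    intro hz
    have := Nat.find_spec e1
    rw [hz] at this
    exact h10 this.symm
  have p2 : 0 < Nat.find e2 := by
    rw [Nat.pos_iff_ne_zero]
    intro hz
    have := Nat.find_spec e2
    rw [hz] at this
    exact h20 this.symm
  unfold arr at he
  rw [dif_pos e1, dif_pos e2] at he
  rcases lt_trichotomy (Nat.find e1) (Nat.find e2) with h | h | h
  · exact (key _ _ e1 e2 p1 h he).elim
  · rw [← Nat.find_spec e1, ← Nat.find_spec e2, h]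
  · exact (key _ _ e2 e1 p2 h he.symm).elim

/-- if long prefixes have a palindromic suffix occurring only once, every edge is a first arrival
edge -/
theorem arr_surj [Finite α] {u : ℕ → α} {n K : ℕ} (hUO : ∀ E, n ≤ E → UO u K E)
    {ε : Sym2 (List α)} (hε : ε ∈ Ed u n) :
    ∃ ν ∈ V u n, ν ≠ cls (fac u 0 n) ∧ arr u n ν = ε := by
  classical
  obtain ⟨t1, hnp1, ht1⟩ := mem_Ed.1 hε
  have hex : ∃ t, cls (fac u t (n + 1)) = ε := ⟨t1, ht1⟩
  set t := Nat.find hex with htdef
  have ht : cls (fac u t (n + 1)) = ε := Nat.find_spec hex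
  have hnp : ¬ PalI u t (t + (n + 1)) := by
    rw [← fac_rev_iff] at hnp1 ⊢
    rw [← ht1, cls_eq_iff] at ht
    rcases ht with h | h
    · rwa [h]
    · rw [h, List.reverse_reverse]
      exact fun h' => hnp1 h'.symm
  have claim : ∀ j ≤ t, cls (fac u j n) ≠ cls (fac u (t + 1) n) := by
    intro j hj hcl
    obtain ⟨a, ha1, hpal, hno⟩ := hUO (t + 1 + n) (by omega)
    rw [cls_fac_iff] at hcl
    rcases le_or_gt (t + 1) a with hta | hta
    · rcases hcl with hc | hc
      · refine hno (j + (a - (t + 1))) (by omega) ?_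
        intro x hx
        have := hc (a - (t + 1) + x) (by omega)
        rw [show j + (a - (t + 1)) + x = j + (a - (t + 1) + x) by omega, this]
        congr 1
        omega
      · refine hno j (by omega) ?_
        intro x hx
        rw [← hc x (by omega), hpal (a + x) (by omega) (by omega)]
        congr 1
        omega
    · rcases Nat.lt_or_ge a t with hat | hat
      · have hmin : cls (fac u a (n + 1)) = ε := by
          rw [← ht, cls_fac_iff]
          right
          intro x hx
          rw [hpal (a + x) (by omega) (by omega)]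
          congr 1
          omega
        exact Nat.find_min hex hat hmin
      · have hat' : a = t := by omega
        rw [hat'] at hpal
        apply hnp
        rwa [show t + (n + 1) = t + 1 + n by omega]
  refine ⟨cls (fac u (t + 1) n), cls_fac_mem_V u n _, fun h => claim 0 (Nat.zero_le _) h.symm, ?_⟩
  have hex2 : ∃ s, cls (fac u s n) = cls (fac u (t + 1) n) := ⟨t + 1, rfl⟩
  have hfind : Nat.find hex2 = t + 1 := by
    rw [Nat.find_eq_iff]
    exact ⟨rfl, fun j hj => claim j (by omega)⟩
  unfold arr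
  rw [dif_pos hex2, hfind]
  exact ht

theorem card_V_eq [Finite α] {u : ℕ → α} {n K : ℕ} (hUO : ∀ E, n ≤ E → UO u K E) :
    (V u n).card = (Ed u n).card + 1 := by
  classical
  have h0 : cls (fac u 0 n) ∈ V u n := cls_fac_mem_V u n 0
  rw [← Finset.card_erase_add_one h0]
  congr 1
  refine Finset.card_bij (fun ν _ => arr u n ν) ?_ ?_ ?_
  · intro ν hν
    rw [Finset.mem_erase] at hν
    exact arr_mem hν.2 hν.1
  · intro ν1 h1 ν2 h2 he
    rw [Finset.mem_erase] at h1 h2
    exact arr_inj h1.2 h1.1 h2.2 h2.1 he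
  · intro ε hε
    obtain ⟨ν, h1, h2, h3⟩ := arr_surj hUO hε
    exact ⟨ν, Finset.mem_erase.2 ⟨h2, h1⟩, h3⟩

theorem T_zero [Finite α] {u : ℕ → α} (hrev : ClosedRev u) {n K : ℕ}
    (hUO : ∀ E, n ≤ E → UO u K E) : T u n = 0 := by
  rw [T_eq hrev, card_V_eq hUO]
  push_cast
  ring

end count

/-- eventually palindromic complete return words force `T(n) = 0` eventually -/
theorem T_eventually_zero [Finite α] {u : ℕ → α} (hrev : ClosedRev u)
    (hinf : {w | w ∈ lang u ∧ w.reverse = w}.Infinite) (K : ℕ)
    (h : ∀ w ∈ lang u, w.reverse = w → K ≤ w.length → ∀ v ∈ lang u,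
      IsCompleteReturn w v → v.reverse = v) : ∃ N, ∀ n, N ≤ n → T u n = 0 := by
  have hK : HK u K := hk_of_list h
  obtain ⟨N1, hN1⟩ := main_UO hK (mark_of_inf hrev hinf K)
  exact ⟨N1, fun n hn => T_zero hrev (K := K) fun E hE => hN1 E (by omega)⟩

end Pool.Agent.R406.Pal
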