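import Mathlib

/-! # Palindromes in infinite words: definitions

An infinite word over the alphabet `α` is a map `u : ℕ → α`; finite words are lists. -/

namespace Pool.Agent.R406.Pal

variable {α : Type*}

/-- the factor `u i, u (i+1), …, u (i+n-1)` of length `n` of the infinite word `u` -/
def fac (u : ℕ → α) (i n : ℕ) : List α := (List.range n).map fun j => u (i + j)

/-- the language of `u`: the set of its finite factors (the empty word included) -/
def lang (u : ℕ → α) : Set (List α) := {w | ∃ i n, w = fac u i n}

/-- the language of `u` is closed under reversal -/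
def ClosedRev (u : ℕ → α) : Prop := ∀ w ∈ lang u, w.reverse ∈ lang u

/-- the set of positions at which the word `w` occurs in the word `v` -/
def occ (w v : List α) : Set ℕ := {j | j + w.length ≤ v.length ∧ (v.drop j).take w.length = w}

/-- `v` is a complete return word of `w`: it is longer than `w` and contains exactly two
occurrences of `w`, one as a prefix and one as a suffix -/
def IsCompleteReturn (w v : List α) : Prop :=
  w.length < v.length ∧ occ w v = {0, v.length - w.length}

/-- the factor complexity `𝒞(n)`: the number of factors of length `n` -/
noncomputable def facCount (u : ℕ → α) (n : ℕ) : ℕ := {w | w ∈ lang u ∧ w.length = n}.ncard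

/-- the palindromic complexity `𝒫(n)`: the number of palindromic factors of length `n` -/
noncomputable def palCount (u : ℕ → α) (n : ℕ) : ℕ :=
  {w | w ∈ lang u ∧ w.length = n ∧ w.reverse = w}.ncard

/-- `T(n) = 𝒞(n+1) - 𝒞(n) + 2 - 𝒫(n+1) - 𝒫(n)` -/
noncomputable def T (u : ℕ → α) (n : ℕ) : ℤ :=
  (facCount u (n + 1) : ℤ) - facCount u n + 2 - palCount u (n + 1) - palCount u n

/-- the number of distinct palindromic factors of the finite word `w`, the empty word included -/
noncomputable def palFactors (w : List α) : ℕ := {x | x <:+: w ∧ x.reverse = x}.ncard

/-- the defect `D(u) = sup (|w| + 1 - p(w))` over all prefixes `w` of `u`, where `p(w)` is the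
number of distinct palindromic factors of `w` -/
noncomputable def defect (u : ℕ → α) : ℕ∞ :=
  ⨆ n : ℕ, ((n + 1 - palFactors (fac u 0 n) : ℕ) : ℕ∞)

end Pool.Agent.R406.Pal
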