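import Pool.Agent.R406.PalTree

/-! # A word with eventually vanishing `T` and arbitrarily long factors containing their longest
palindromic suffix twice -/

namespace Pool.Agent.R406.Pal.Ex

/-- the palindrome `x y z x b^(k+1) x z y x` with `x = 0`, `y = 1`, `z = 2`, `b = 3` -/
def C (k : ℕ) : List (Fin 4) := [0, 1, 2, 0] ++ (List.replicate (k + 1) 3 ++ [0, 2, 1, 0])

/-- `W 0` is empty and `W (k+1) = W k · C k · W k` -/
def W : ℕ → List (Fin 4)
  | 0 => []
  | k + 1 => W k ++ (C k ++ W k)

/-- the infinite word whose prefixes are the words `W k` -/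
def u (n : ℕ) : Fin 4 := (W (n + 1)).getD n 0

/-- length of `W k` -/
def l (k : ℕ) : ℕ := (W k).length

theorem C_len (k : ℕ) : (C k).length = k + 9 := by simp [C]

theorem l_zero : l 0 = 0 := rfl

theorem l_succ (k : ℕ) : l (k + 1) = l k + (k + 9) + l k := by
  simp only [l, W, List.length_append, C_len]; omega

theorem l_gt (k : ℕ) : k ≤ l k := by
  induction k with
  | zero => exact Nat.zero_le _
  | succ k ih => rw [l_succ]; omega

theorem W_prefix (j d : ℕ) : W j <+: W (j + d) := by
  induction d with
  | zero => exact List.prefix_refl _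
  | succ d ih => exact ih.trans (List.prefix_append _ _)

theorem getD_W {j n : ℕ} (d : ℕ) (h : n < l j) : (W (j + d)).getD n 0 = (W j).getD n 0 := by
  obtain ⟨t, ht⟩ := W_prefix j d
  rw [← ht, List.getD_append _ _ _ _ h]

theorem u_eq {k n : ℕ} (h : n < l k) : u n = (W k).getD n 0 := by
  unfold u
  have h1 : n < l (n + 1) := by have := l_gt (n + 1); omega
  rcases Nat.le_total k (n + 1) with hk | hk
  · obtain ⟨d, hd⟩ := Nat.exists_eq_add_of_le hk
    rw [hd, getD_W d h]
  · obtain ⟨d, hd⟩ := Nat.exists_eq_add_of_le hk
    rw [hd, getD_W d h1]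

theorem l_mono {j k : ℕ} (h : j ≤ k) : l j ≤ l k := by
  obtain ⟨d, rfl⟩ := Nat.exists_eq_add_of_le h
  exact (W_prefix j d).length_le

theorem u_second {k i : ℕ} (h : i < l k) : u (l k + (k + 9) + i) = u i := by
  rw [u_eq (k := k + 1) (by rw [l_succ]; omega), u_eq h]
  change (W k ++ (C k ++ W k)).getD _ 0 = _
  rw [List.getD_append_right _ _ _ _ (by change l k ≤ _; omega)]
  change (C k ++ W k).getD (l k + (k + 9) + i - l k) 0 = _
  rw [List.getD_append_right _ _ _ _ (by rw [C_len]; omega), C_len]
  congr 1
  omega

theorem u_mid {k i : ℕ} (h : i < k + 9) : u (l k + i) = (C k).getD i 0 := by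
  rw [u_eq (k := k + 1) (by rw [l_succ]; omega)]
  change (W k ++ (C k ++ W k)).getD _ 0 = _
  rw [List.getD_append_right _ _ _ _ (by change l k ≤ _; omega)]
  change (C k ++ W k).getD (l k + i - l k) 0 = _
  rw [List.getD_append _ _ _ _ (by rw [C_len]; omega)]
  congr 1
  omega

theorem C_val {k i : ℕ} (h : i < k + 9) : (C k).getD i 0 =
    if i = 1 ∨ i = k + 7 then 1 else if i = 2 ∨ i = k + 6 then 2 else
      if 4 ≤ i ∧ i < k + 5 then 3 else 0 := by
  unfold C
  rcases Nat.lt_or_ge i 4 with h4 | h4
  · rw [List.getD_append _ _ _ _ (by simpa using h4)]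
    interval_cases i
    · simp
    · simp
    · simp
    · simp
  · rw [List.getD_append_right _ _ _ _ (by simpa using h4)]
    have e : ([0, 1, 2, 0] : List (Fin 4)).length = 4 := rfl
    rw [e]
    rcases Nat.lt_or_ge i (k + 5) with h5 | h5
    · rw [List.getD_append _ _ _ _ (by rw [List.length_replicate]; omega)]
      rw [if_neg (by omega), if_neg (by omega), if_pos ⟨h4, h5⟩]
      rw [List.getD_eq_getElem _ _ (by rw [List.length_replicate]; omega), List.getElem_replicate]
    · rw [List.getD_append_right _ _ _ _ (by rw [List.length_replicate]; omega),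
        List.length_replicate]
      obtain ⟨j, rfl⟩ := Nat.exists_eq_add_of_le h5
      rw [show k + 5 + j - 4 - (k + 1) = j by omega]
      have hj : j < 4 := by omega
      interval_cases j
      · rw [if_neg (by omega), if_neg (by omega), if_neg (by omega)]; rfl
      · rw [if_neg (by omega), if_pos (by omega)]; rfl
      · rw [if_pos (by omega)]; rfl
      · rw [if_neg (by omega), if_neg (by omega), if_neg (by omega)]; rfl

theorem u_val {k i : ℕ} (h : i < k + 9) : u (l k + i) =
    if i = 1 ∨ i = k + 7 then 1 else if i = 2 ∨ i = k + 6 then 2 else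
      if 4 ≤ i ∧ i < k + 5 then 3 else 0 := by
  rw [u_mid h, C_val h]

theorem u_b {k i : ℕ} (h1 : 4 ≤ i) (h2 : i < k + 5) : u (l k + i) = 3 := by
  rw [u_val (by omega), if_neg (by omega), if_neg (by omega), if_pos ⟨h1, h2⟩]

theorem u_nb {k i : ℕ} (h : i < k + 9) (h' : ¬ (4 ≤ i ∧ i < k + 5)) : u (l k + i) ≠ 3 := by
  rw [u_val h, if_neg h']
  split_ifs <;> decide

theorem C_rev (k : ℕ) : (C k).reverse = C k := by
  unfold C
  rw [List.reverse_append, List.reverse_append, List.reverse_replicate]
  simp

theorem W_rev (k : ℕ) : (W k).reverse = W k := by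
  induction k with
  | zero => rfl
  | succ k ih =>
    unfold W
    rw [List.reverse_append, List.reverse_append, ih, C_rev, List.append_assoc]

theorem fac_W (k : ℕ) : fac u 0 (l k) = W k := by
  apply List.ext_getElem
  · rw [fac_length]; rfl
  · intro j h1 h2
    rw [fac_getElem, Nat.zero_add, u_eq (k := k) h2, List.getD_eq_getElem _ _ h2]

theorem pal_W (k : ℕ) : PalI u 0 (l k) := by
  have h := W_rev k
  rw [← fac_W, fac_rev_iff, Nat.zero_add] at h
  exact h

theorem closedRev : ClosedRev u := by
  rintro w ⟨i, n, rfl⟩
  have h1 := l_gt (i + n)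
  have h2 := pal_W (i + n)
  refine ⟨l (i + n) - i - n, n, ?_⟩
  rw [fac_rev_eq_iff]
  intro a ha
  rw [h2 (i + (n - 1 - a)) (by omega) (by omega)]
  congr 1
  omega

theorem infinite_pal : {w | w ∈ lang u ∧ w.reverse = w}.Infinite := by
  refine Set.infinite_of_injective_forall_mem (f := fun k : ℕ => W k) ?_ ?_
  · intro j k h
    by_contra hne
    have key : ∀ j k, j < k → l j < l k := by
      intro j k hjk
      have h1 := l_mono (show j + 1 ≤ k from hjk)
      rw [l_succ] at h1
      omega
    have hl : l j = l k := congrArg List.length h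
    rcases Nat.lt_or_gt_of_ne hne with h | h
    · have := key _ _ h; omega
    · have := key _ _ h; omega
  · intro k
    refine ⟨⟨0, l k, (fac_W k).symm⟩, W_rev k⟩

/-- a run of `b`s of length `j` at position `q` -/
def B (j q : ℕ) : Prop := ∀ i < j, u (q + i) = 3

/-- `W k` contains runs of at most `k` letters `b`, and exactly one of that length -/
theorem run_bound (k : ℕ) : ∀ j q, 0 < j → q + j ≤ l k → B j q →
    j ≤ k ∧ (j = k → q + (k + 4) = l k - l (k - 1)) := by
  induction k with
  | zero =>
    intro j q hj h
    rw [l_zero] at h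
    omega
  | succ k ih =>
    intro j q hj h hB
    rw [Nat.add_sub_cancel, l_succ]
    rw [l_succ] at h
    rcases Nat.lt_or_ge q (l k) with h1 | h1
    · -- starts in the first copy
      rcases Nat.lt_or_ge (l k) (q + j) with h2 | h2
      · exact absurd (hB (l k - q) (by omega)) (by
          rw [show q + (l k - q) = l k + 0 by omega]
          exact u_nb (by omega) (by omega))
      · obtain ⟨h3, _⟩ := ih j q hj h2 hB
        exact ⟨by omega, by omega⟩
    · obtain ⟨r, rfl⟩ := Nat.exists_eq_add_of_le h1
      rcases Nat.lt_or_ge r (k + 9) with h2 | h2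
      · -- starts in the middle block
        have hr : 4 ≤ r ∧ r < k + 5 := by
          by_contra hcon
          exact u_nb h2 hcon (hB 0 hj)
        have hrj : r + j ≤ k + 5 := by
          by_contra hcon
          push Not at hcon
          have := hB (k + 5 - r) (by omega)
          rw [show l k + r + (k + 5 - r) = l k + (k + 5) by omega] at this
          exact u_nb (by omega) (by omega) this
        exact ⟨by omega, by omega⟩
      · obtain ⟨s, rfl⟩ := Nat.exists_eq_add_of_le h2
        have hB' : B j s := by
          intro i hi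
          have := hB i hi
          rw [show l k + (k + 9 + s) + i = l k + (k + 9) + (s + i) by omega,
            u_second (by omega)] at this
          exact this
        obtain ⟨h3, _⟩ := ih j s hj (by omega) hB'
        exact ⟨by omega, by omega⟩

/-- the longest run of `b`s in `W (k+1)` -/
theorem run_unique {k q : ℕ} (h : q + (k + 1) ≤ l (k + 1)) (hB : B (k + 1) q) : q = l k + 4 := by
  obtain ⟨_, h2⟩ := run_bound (k + 1) (k + 1) q (by omega) h hB
  have h3 := h2 rfl
  rw [Nat.add_sub_cancel, l_succ] at h3
  omega

/-- exact runs of length `k + 1` in `W (k+2)` -/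
theorem run_exact {k q : ℕ} (h : q + (k + 1) < l (k + 2)) (hq : 0 < q) (hB : B (k + 1) q)
    (h1 : u (q - 1) ≠ 3) (h2 : u (q + (k + 1)) ≠ 3) :
    q = l k + 4 ∨ q = l (k + 1) + (k + 1 + 9) + (l k + 4) := by
  rw [l_succ (k + 1)] at h
  rcases Nat.lt_or_ge q (l (k + 1)) with h3 | h3
  · left
    rcases Nat.lt_or_ge (l (k + 1)) (q + (k + 1)) with h4 | h4
    · exact absurd (hB (l (k + 1) - q) (by omega)) (by
        rw [show q + (l (k + 1) - q) = l (k + 1) + 0 by omega]
        exact u_nb (by omega) (by omega))
    · exact run_unique h4 hB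
  · obtain ⟨r, rfl⟩ := Nat.exists_eq_add_of_le h3
    rcases Nat.lt_or_ge r (k + 1 + 9) with h5 | h5
    · exfalso
      have hr : 4 ≤ r ∧ r < k + 1 + 5 := by
        by_contra hcon
        exact u_nb h5 hcon (hB 0 (by omega))
      rcases Nat.lt_or_ge 4 r with h6 | h6
      · apply h1
        rw [show l (k + 1) + r - 1 = l (k + 1) + (r - 1) by omega]
        exact u_b (by omega) (by omega)
      · apply h2
        rw [show l (k + 1) + r + (k + 1) = l (k + 1) + (r + (k + 1)) by omega]
        exact u_b (by omega) (by omega)
    · right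
      obtain ⟨s, rfl⟩ := Nat.exists_eq_add_of_le h5
      have hB' : B (k + 1) s := by
        intro i hi
        have := hB i hi
        rw [show l (k + 1) + (k + 1 + 9 + s) + i = l (k + 1) + (k + 1 + 9) + (s + i) by omega,
          u_second (by omega)] at this
        exact this
      have := run_unique (by omega) hB'
      omega

/-- long prefixes have a palindromic suffix which occurs only once -/
theorem UO_u (E : ℕ) (hE : l 2 < E) : UO u 0 E := by
  have hex : ∃ k, E ≤ l (k + 1) := ⟨E, by have := l_gt (E + 1); omega⟩
  classical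
  have hf := Nat.find_spec hex
  have hmin := fun j (hj : j < Nat.find hex) => Nat.find_min hex hj
  set k := Nat.find hex
  clear_value k
  have hk2 : 2 ≤ k := by
    by_contra hcon
    push Not at hcon
    have := l_mono (show k + 1 ≤ 2 by omega)
    omega
  obtain ⟨j, rfl⟩ : ∃ j, k = j + 1 + 1 := ⟨k - 2, by omega⟩
  have hlt : l (j + 1 + 1) < E := by
    have := hmin (j + 1) (by omega)
    omega
  rcases Nat.lt_or_ge E (l (j + 1 + 1) + (j + 1 + 1) + 5) with hA | hB
  · -- the centre is the last copy of `W (j+1)` in `W (j+2)`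
    have hl2 := l_succ (j + 1)
    have hl1 := l_succ j
    refine ⟨l (j + 1 + 1) + (l (j + 1) + (j + 1 + 9)) - E, by omega, ?_, ?_⟩
    · intro a ha1 ha2
      have key : ∀ i, i < j + 1 + 5 →
          u (l (j + 1) + (j + 1 + 9) - 1 - i) = u (l (j + 1 + 1) + i) := by
        intro i hi
        rw [show l (j + 1) + (j + 1 + 9) - 1 - i = l (j + 1) + (j + 1 + 8 - i) by omega,
          u_val (by omega), u_val (by omega)]
        rcases Nat.lt_or_ge i 4 with h4 | h4
        · interval_cases i
          · rw [if_neg (by omega), if_neg (by omega), if_neg (by omega), if_neg (by omega),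
              if_neg (by omega), if_neg (by omega)]
          · rw [if_pos (by omega), if_pos (by omega)]
          · rw [if_neg (by omega), if_pos (by omega), if_neg (by omega), if_pos (by omega)]
          · rw [if_neg (by omega), if_neg (by omega), if_neg (by omega), if_neg (by omega),
              if_neg (by omega), if_neg (by omega)]
        · rw [if_neg (by omega), if_neg (by omega), if_pos (by omega), if_neg (by omega),
            if_neg (by omega), if_pos (by omega)]
      rcases Nat.lt_or_ge a (l (j + 1) + (j + 1 + 9)) with h1 | h1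
      · have := key (l (j + 1) + (j + 1 + 9) - 1 - a) (by omega)
        rw [show l (j + 1) + (j + 1 + 9) - 1 - (l (j + 1) + (j + 1 + 9) - 1 - a) = a by omega]
          at this
        rw [this]
        congr 1
        omega
      · rcases Nat.lt_or_ge a (l (j + 1 + 1)) with h2 | h2
        · obtain ⟨s, rfl⟩ := Nat.exists_eq_add_of_le h1
          rw [u_second (by omega), pal_W (j + 1) s (by omega) (by omega),
            ← u_second (k := j + 1) (i := 0 + l (j + 1) - 1 - s) (by omega)]
          congr 1
          omega
        · obtain ⟨s, rfl⟩ := Nat.exists_eq_add_of_le h2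
          rw [← key s (by omega)]
          congr 1
          omega
    · intro b hb hEq
      -- exact run of length `j + 1`
      have hrun : ∀ i, i < l (j + 1 + 1) - (l (j + 1) + (j + 1 + 9)) →
          u (b + (E - l (j + 1 + 1)) + i) = u i := by
        intro i hi
        have := hEq (E - l (j + 1 + 1) + i) (by omega)
        rw [show b + (E - l (j + 1 + 1)) + i = b + (E - l (j + 1 + 1) + i) by omega, this,
          show l (j + 1 + 1) + (l (j + 1) + (j + 1 + 9)) - E + (E - l (j + 1 + 1) + i) =
            l (j + 1) + (j + 1 + 9) + i by omega, u_second (by omega)]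
      have hres := run_exact (k := j) (q := b + (E - l (j + 1 + 1)) + (l j + 4)) (by
          change _ < l (j + 1 + 1)
          omega) (by omega) (by
          intro i hi
          rw [show b + (E - l (j + 1 + 1)) + (l j + 4) + i =
            b + (E - l (j + 1 + 1)) + (l j + (4 + i)) by omega, hrun _ (by omega)]
          exact u_b (by omega) (by omega)) (by
          rw [show b + (E - l (j + 1 + 1)) + (l j + 4) - 1 =
            b + (E - l (j + 1 + 1)) + (l j + 3) by omega, hrun _ (by omega)]
          exact u_nb (by omega) (by omega)) (by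
          rw [show b + (E - l (j + 1 + 1)) + (l j + 4) + (j + 1) =
            b + (E - l (j + 1 + 1)) + (l j + (j + 5)) by omega, hrun _ (by omega)]
          exact u_nb (by omega) (by omega))
      omega
  · -- the centre is the middle of `W (j+3)`
    have hl3 := l_succ (j + 1 + 1)
    refine ⟨l (j + 1 + 1 + 1) - E, by omega, ?_, ?_⟩
    · exact (pal_W (j + 1 + 1 + 1)).sub (Nat.zero_le _) (by omega) (by omega)
    · intro b hb hEq
      have hq : b + (l (j + 1 + 1) + 4 - (l (j + 1 + 1 + 1) - E)) = l (j + 1 + 1) + 4 := by
        refine run_unique (by omega) ?_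
        intro i hi
        rw [show b + (l (j + 1 + 1) + 4 - (l (j + 1 + 1 + 1) - E)) + i =
          b + (l (j + 1 + 1) + 4 - (l (j + 1 + 1 + 1) - E) + i) by omega,
          hEq _ (by omega),
          show l (j + 1 + 1 + 1) - E + (l (j + 1 + 1) + 4 - (l (j + 1 + 1 + 1) - E) + i) =
            l (j + 1 + 1) + (4 + i) by omega]
        exact u_b (by omega) (by omega)
      omega

theorem T_u (n : ℕ) (hn : l 2 < n) : T u n = 0 :=
  T_zero closedRev (K := 0) fun E hE => UO_u E (by omega)

theorem defect_u : defect u < ⊤ := defect_lt_top (K := 0) (N1 := l 2 + 1)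
  fun E hE => UO_u E (by omega)

/-- the factor `b^(m+1) x z y x` -/
def f (m : ℕ) : List (Fin 4) := List.replicate (m + 1) 3 ++ [0, 2, 1, 0]

theorem f_mem (m : ℕ) : f m ∈ lang u := by
  refine ⟨l m + 4, m + 5, ?_⟩
  apply List.ext_getElem
  · rw [fac_length]; simp [f]
  · intro j h1 h2
    rw [fac_getElem]
    rw [fac_length] at h2
    rw [show l m + 4 + j = l m + (4 + j) by omega, u_mid (by omega)]
    unfold C
    rw [List.getD_append_right _ _ _ _ (by simp)]
    have e : ([0, 1, 2, 0] : List (Fin 4)).length = 4 := rfl
    rw [e, show 4 + j - 4 = j by omega, List.getD_eq_getElem]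
    rfl

theorem f_len (m : ℕ) : (f m).length = m + 5 := by simp [f]

theorem f_rev (m : ℕ) : (f m).reverse = [0, 1, 2, 0] ++ List.replicate (m + 1) 3 := by
  unfold f
  rw [List.reverse_append, List.reverse_replicate]
  rfl

theorem f_lps (m : ℕ) (q : List (Fin 4)) (hq : q <:+ f m) (hr : q.reverse = q) :
    q.length ≤ 1 := by
  by_contra hcon
  push Not at hcon
  have hpre : q <+: [0, 1, 2, 0] ++ List.replicate (m + 1) 3 := by
    rw [← f_rev, ← hr]
    exact List.reverse_prefix.2 hq
  have hlen := hq.length_le
  rw [f_len] at hlen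
  have hget : ∀ i (hi : i < q.length), q[i] =
      ([0, 1, 2, 0] ++ List.replicate (m + 1) 3 : List (Fin 4)).getD i 0 := by
    intro i hi
    rw [hpre.getElem hi, List.getD_eq_getElem]
  have hsym : ∀ i (hi : i < q.length), q[i] = q[q.length - 1 - i]'(by omega) := by
    intro i hi
    have h2 : i < q.reverse.length := by rw [List.length_reverse]; exact hi
    have := List.getElem_of_eq hr h2
    rw [List.getElem_reverse] at this
    exact this.symm
  have h0 := hsym 0 (by omega)
  rw [hget 0 (by omega), hget (q.length - 1 - 0) (by omega)] at h0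
  rcases Nat.lt_or_ge q.length 5 with h5 | h5
  · have h1 := hsym 1 (by omega)
    rw [hget 1 (by omega), hget (q.length - 1 - 1) (by omega)] at h1
    clear hget hsym hpre hr hq
    generalize q.length = r at *
    interval_cases r
    · simp at h0
    · simp at h0
    · simp at h1
  · rw [List.getD_append_right _ _ (0 : Fin 4) (q.length - 1 - 0) (by
        change 4 ≤ _
        omega)] at h0
    have h3 : (List.replicate (m + 1) (3 : Fin 4)).getD
        (q.length - 1 - 0 - ([0, 1, 2, 0] : List (Fin 4)).length) 0 = 3 := by
      have e : ([0, 1, 2, 0] : List (Fin 4)).length = 4 := rfl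
      rw [e, List.getD_eq_getElem _ _ (by rw [List.length_replicate]; omega),
        List.getElem_replicate]
    rw [h3] at h0
    have h4 : (([0, 1, 2, 0] : List (Fin 4)) ++ List.replicate (m + 1) 3).getD 0 0 = 0 := rfl
    rw [h4] at h0
    exact absurd h0 (by decide)

theorem f_occ (m : ℕ) : 2 ≤ (occ [0] (f m)).ncard := by
  have h1 : m + 1 ∈ occ [0] (f m) := by
    refine ⟨by rw [f_len]; simp, ?_⟩
    unfold f
    rw [List.drop_left' (by simp)]
    rfl
  have h2 : m + 4 ∈ occ [0] (f m) := by
    refine ⟨by rw [f_len]; simp, ?_⟩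
    unfold f
    rw [show m + 4 = (m + 1) + 3 by omega, ← List.drop_drop, List.drop_left' (by simp)]
    rfl
  have hfin : (occ [0] (f m)).Finite := by
    refine (Set.finite_le_nat (f m).length).subset ?_
    intro j hj
    have := hj.1
    exact (Nat.le_add_right _ _).trans this
  rw [← Set.ncard_pair (show m + 1 ≠ m + 4 by omega)]
  exact Set.ncard_le_ncard (by
    rintro j (rfl | rfl)
    · exact h1
    · exact h2) hfin

end Pool.Agent.R406.Pal.Ex
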