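import Pool.Agent.R406.PalDefs

/-! # Palindromic suffixes of long prefixes -/

namespace Pool.Agent.R406.Pal

variable {α : Type*}

/-- the window `[i, j)` of `u` is a palindrome -/
def PalI (u : ℕ → α) (i j : ℕ) : Prop := ∀ a, i ≤ a → a < j → u a = u (i + j - 1 - a)

/-- the windows of length `m` starting at `i` and `k` are equal -/
def EqW (u : ℕ → α) (i k m : ℕ) : Prop := ∀ a < m, u (i + a) = u (k + a)

theorem fac_length (u : ℕ → α) (i n : ℕ) : (fac u i n).length = n := by simp [fac]

theorem fac_getElem (u : ℕ → α) (i n j : ℕ) (h : j < (fac u i n).length) :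
    (fac u i n)[j] = u (i + j) := by simp [fac]

theorem fac_eq_iff (u : ℕ → α) (i k m : ℕ) : fac u i m = fac u k m ↔ EqW u i k m := by
  constructor
  · intro h a ha
    have h1 : a < (fac u i m).length := by rw [fac_length]; exact ha
    have h2 : a < (fac u k m).length := by rw [fac_length]; exact ha
    have := List.getElem_of_eq h h1
    rwa [fac_getElem, fac_getElem] at this
  · intro h
    apply List.ext_getElem
    · rw [fac_length, fac_length]
    · intro j h1 h2
      rw [fac_getElem, fac_getElem]
      exact h j (by rwa [fac_length] at h1)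

theorem fac_rev_iff (u : ℕ → α) (i m : ℕ) : (fac u i m).reverse = fac u i m ↔ PalI u i (i + m) := by
  constructor
  · intro h a ha1 ha2
    have h1 : a - i < (fac u i m).length := by rw [fac_length]; omega
    have h2 : a - i < (fac u i m).reverse.length := by rw [List.length_reverse]; exact h1
    have := List.getElem_of_eq h h2
    rw [List.getElem_reverse, fac_getElem, fac_getElem] at this
    rw [fac_length] at this
    rw [show i + (a - i) = a by omega] at this
    rw [← this]
    congr 1
    omega
  · intro h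
    apply List.ext_getElem
    · rw [List.length_reverse]
    · intro j h1 h2
      rw [List.getElem_reverse, fac_getElem, fac_getElem]
      rw [fac_length] at h2
      rw [fac_length, h (i + j) (by omega) (by omega)]
      congr 1
      omega

theorem fac_rev_eq_iff (u : ℕ → α) (i k m : ℕ) :
    (fac u i m).reverse = fac u k m ↔ ∀ a < m, u (i + (m - 1 - a)) = u (k + a) := by
  constructor
  · intro h a ha
    have h2 : a < (fac u i m).reverse.length := by rw [List.length_reverse, fac_length]; exact ha
    have := List.getElem_of_eq h h2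
    rw [List.getElem_reverse, fac_getElem, fac_getElem, fac_length] at this
    exact this
  · intro h
    apply List.ext_getElem
    · rw [List.length_reverse, fac_length, fac_length]
    · intro j h1 h2
      rw [fac_length] at h2
      rw [List.getElem_reverse, fac_getElem, fac_getElem, fac_length]
      exact h j h2

theorem fac_mem (u : ℕ → α) (i n : ℕ) : fac u i n ∈ lang u := ⟨i, n, rfl⟩

theorem fac_drop_take (u : ℕ → α) (i n j m : ℕ) (h : j + m ≤ n) :
    ((fac u i n).drop j).take m = fac u (i + j) m := by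
  apply List.ext_getElem
  · simp [fac_length]; omega
  · intro k h1 h2
    rw [List.getElem_take, List.getElem_drop, fac_getElem, fac_getElem]
    congr 1
    omega

/-- subwindow with the same centre -/
theorem PalI.sub {u : ℕ → α} {i j k l : ℕ} (h : PalI u i j) (hik : i ≤ k) (hl : k + l = i + j)
    (_hkl : k ≤ l) : PalI u k l := by
  intro a ha1 ha2
  have := h a (by omega) (by omega)
  rw [this]
  congr 1
  omega

theorem EqW.symm {u : ℕ → α} {i k m : ℕ} (h : EqW u i k m) : EqW u k i m :=
  fun a ha => (h a ha).symm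

theorem EqW.trans {u : ℕ → α} {i k l m : ℕ} (h : EqW u i k m) (h' : EqW u k l m) : EqW u i l m :=
  fun a ha => (h a ha).trans (h' a ha)

theorem EqW.pal {u : ℕ → α} {i k m : ℕ} (h : EqW u i k m) (hp : PalI u i (i + m)) :
    PalI u k (k + m) := by
  intro a ha1 ha2
  have h1 := h (a - k) (by omega)
  have h2 := h (m - 1 - (a - k)) (by omega)
  have h3 := hp (i + (a - k)) (by omega) (by omega)
  rw [show k + (a - k) = a by omega] at h1
  rw [show k + (m - 1 - (a - k)) = k + (k + m) - 1 - a by omega] at h2
  rw [← h1, ← h2, h3]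
  congr 1
  omega

/-- position form of: complete return words of palindromes of length at least `K` are
palindromes -/
def HK (u : ℕ → α) (K : ℕ) : Prop :=
  ∀ i m, K ≤ m → PalI u i (i + m) → ∀ i', i < i' → EqW u i i' m →
    (∀ k, i < k → k < i' → ¬ EqW u i k m) → PalI u i (i' + m)

/-- the prefix of length `E` has a palindromic suffix of length at least `K` which occurs only
once in it -/
def UO (u : ℕ → α) (K E : ℕ) : Prop :=
  ∃ a, a + K ≤ E ∧ PalI u a E ∧ ∀ b, b < a → ¬ EqW u b a (E - a)

/-- all windows of length `m` occur before `N` -/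
theorem exists_bound [Finite α] (u : ℕ → α) (m : ℕ) :
    ∃ N, ∀ i, ∃ j, j + m ≤ N ∧ EqW u j i m := by
  classical
  have : Fintype α := Fintype.ofFinite α
  let g : (Fin m → α) → ℕ := fun f =>
    if h : ∃ i, (fun a : Fin m => u (i + a)) = f then Nat.find h + m else 0
  refine ⟨Finset.univ.sup g, fun i => ?_⟩
  have h : ∃ j, (fun a : Fin m => u (j + a)) = (fun a : Fin m => u (i + a)) := ⟨i, rfl⟩
  refine ⟨Nat.find h, ?_, ?_⟩
  · have h1 : g (fun a : Fin m => u (i + a)) = Nat.find h + m := by
      simp only [g]
      rw [dif_pos h]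
    rw [← h1]
    exact Finset.le_sup (Finset.mem_univ _)
  · intro a ha
    have := congrFun (Nat.find_spec h) ⟨a, ha⟩
    exact this

theorem main_suffix [Finite α] {u : ℕ → α} {K : ℕ} (hK : HK u K)
    (hmark : ∀ E, ∃ i m, (m = K ∨ m = K + 1) ∧ PalI u i (i + m) ∧ E < i + m) :
    ∃ N1, ∀ E, N1 ≤ E → ∃ a, a + K ≤ E ∧ PalI u a E := by
  classical
  obtain ⟨Na, hNa⟩ := exists_bound u K
  obtain ⟨Nb, hNb⟩ := exists_bound u (K + 1)
  refine ⟨max Na Nb, fun E hE => ?_⟩
  have hex : ∃ s, ∃ i m, (m = K ∨ m = K + 1) ∧ PalI u i (i + m) ∧ E < i + m ∧ s = 2 * i + m := by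
    obtain ⟨i, m, h1, h2, h3⟩ := hmark E
    exact ⟨2 * i + m, i, m, h1, h2, h3, rfl⟩
  obtain ⟨ip, mp, hmp, hpal, hend, hs⟩ := Nat.find_spec hex
  set s := Nat.find hex with hsdef
  -- an earlier occurrence
  have hearly : ∃ j, j + mp ≤ E ∧ EqW u j ip mp := by
    rcases hmp with h | h
    · subst h
      obtain ⟨j, hj1, hj2⟩ := hNa ip
      exact ⟨j, by omega, hj2⟩
    · subst h
      obtain ⟨j, hj1, hj2⟩ := hNb ip
      exact ⟨j, by omega, hj2⟩
  obtain ⟨j0, hj0, hj0'⟩ := hearly
  have hj0lt : j0 < ip := by omega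
  -- the last earlier occurrence
  let S := (Finset.range ip).filter (fun d => EqW u d ip mp)
  have hSne : S.Nonempty := ⟨j0, by simp [S, hj0lt, hj0']⟩
  have hdS := Finset.max'_mem S hSne
  set d := S.max' hSne with hd
  have hd1 : d < ip ∧ EqW u d ip mp := by
    have := hdS
    simp only [S, Finset.mem_filter, Finset.mem_range] at this
    exact this
  have hret : PalI u d (ip + mp) := by
    refine hK d mp ?_ (hd1.2.symm.pal hpal) ip hd1.1 hd1.2 ?_
    · rcases hmp with h | h <;> omega
    · intro k hk1 hk2 hk3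
      have : k ∈ S := by
        simp only [S, Finset.mem_filter, Finset.mem_range]
        exact ⟨hk2, hk3.symm.trans hd1.2⟩
      have := Finset.le_max' S k this
      omega
  -- the centre of the return word is a mark
  obtain ⟨m, i, hm, hmi⟩ : ∃ m i, (m = K ∨ m = K + 1) ∧ 2 * i + m = d + ip + mp := by
    rcases Nat.even_or_odd (d + ip + mp - K) with h | h
    · obtain ⟨r, hr⟩ := h
      exact ⟨K, r, Or.inl rfl, by omega⟩
    · obtain ⟨r, hr⟩ := h
      exact ⟨K + 1, r, Or.inr rfl, by rcases hmp with h | h <;> omega⟩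
  have hpi : PalI u i (i + m) := by
    refine hret.sub (k := i) (l := i + m) ?_ ?_ ?_
    · rcases hmp with h | h <;> rcases hm with h' | h' <;> omega
    · omega
    · omega
  have hle : i + m ≤ E := by
    by_contra hcon
    push Not at hcon
    have h1 : d + ip + mp < s := by rw [hs]; omega
    have h2 := Nat.find_min hex h1
    exact h2 ⟨i, m, hm, hpi, hcon, hmi.symm⟩
  refine ⟨d + ip + mp - E, ?_, ?_⟩
  · rcases hm with h' | h' <;> omega
  · refine hret.sub ?_ ?_ ?_
    · omega
    · omega
    · omega

theorem main_UO [Finite α] {u : ℕ → α} {K : ℕ} (hK : HK u K)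
    (hmark : ∀ E, ∃ i m, (m = K ∨ m = K + 1) ∧ PalI u i (i + m) ∧ E < i + m) :
    ∃ N1, ∀ E, N1 ≤ E → UO u K E := by
  classical
  obtain ⟨N1, hN1⟩ := main_suffix hK hmark
  refine ⟨N1, fun E hE => ?_⟩
  have hex : ∃ a, a + K ≤ E ∧ PalI u a E := hN1 E hE
  obtain ⟨h1, h2⟩ := Nat.find_spec hex
  set a := Nat.find hex
  refine ⟨a, h1, h2, fun b hb hbe => ?_⟩
  let S := (Finset.range a).filter (fun d => EqW u d a (E - a))
  have hSne : S.Nonempty := ⟨b, by simp [S, hb, hbe]⟩
  have hdS := Finset.max'_mem S hSne
  set d := S.max' hSne with hd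
  have hd1 : d < a ∧ EqW u d a (E - a) := by
    have := hdS
    simp only [S, Finset.mem_filter, Finset.mem_range] at this
    exact this
  have hpa : PalI u a (a + (E - a)) := by
    rw [show a + (E - a) = E by omega]; exact h2
  have hret : PalI u d (a + (E - a)) := by
    refine hK d (E - a) (by omega) (hd1.2.symm.pal hpa) a hd1.1 hd1.2 ?_
    intro k hk1 hk2 hk3
    have : k ∈ S := by
      simp only [S, Finset.mem_filter, Finset.mem_range]
      exact ⟨hk2, hk3.symm.trans hd1.2⟩
    have := Finset.le_max' S k this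
    omega
  rw [show a + (E - a) = E by omega] at hret
  exact Nat.find_min hex hd1.1 ⟨by omega, hret⟩

end Pool.Agent.R406.Pal
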