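import Pool.Agent.R406.PalCount

/-! # `T(n) = 0` for all large `n` forces finite defect -/

namespace Pool.Agent.R406.Pal

variable {α : Type*}

section tree

variable [Finite α]

/-- the vertex visited at time `t` -/
noncomputable def vt (u : ℕ → α) (m t : ℕ) : ↥(V u m) := ⟨cls (fac u t m), cls_fac_mem_V u m t⟩

theorem vt_eq_iff (u : ℕ → α) (m s t : ℕ) :
    vt u m s = vt u m t ↔ cls (fac u s m) = cls (fac u t m) := by
  unfold vt
  rw [Subtype.mk.injEq]

/-- the graph of classes of factors of length `m` -/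
noncomputable def G (u : ℕ → α) (m : ℕ) : SimpleGraph ↥(V u m) :=
  SimpleGraph.fromEdgeSet (Set.range fun t => s(vt u m t, vt u m (t + 1)))

theorem G_adj {u : ℕ → α} {m t : ℕ} (h : vt u m t ≠ vt u m (t + 1)) :
    (G u m).Adj (vt u m t) (vt u m (t + 1)) := by
  unfold G
  rw [SimpleGraph.fromEdgeSet_adj]
  exact ⟨⟨t, rfl⟩, h⟩

theorem G_reach (u : ℕ → α) (m t : ℕ) : (G u m).Reachable (vt u m 0) (vt u m t) := by
  induction t with
  | zero => exact SimpleGraph.Reachable.refl _
  | succ t ih =>
    by_cases h : vt u m t = vt u m (t + 1)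
    · rw [← h]; exact ih
    · exact ih.trans (G_adj h).reachable

theorem G_conn (u : ℕ → α) (m : ℕ) : (G u m).Connected := by
  have hne : Nonempty ↥(V u m) := ⟨vt u m 0⟩
  refine SimpleGraph.Connected.mk ?_
  have key : ∀ ν : ↥(V u m), (G u m).Reachable (vt u m 0) ν := by
    rintro ⟨ν, hν⟩
    obtain ⟨t, rfl⟩ := mem_V.1 hν
    exact G_reach u m t
  intro a b
  exact (key a).symm.trans (key b)

theorem edge_ends {u : ℕ → α} {m s t : ℕ}
    (h : cls (fac u s (m + 1)) = cls (fac u t (m + 1))) :
    s(vt u m s, vt u m (s + 1)) = s(vt u m t, vt u m (t + 1)) := by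
  rw [cls_fac_iff] at h
  rw [Sym2.eq_iff, vt_eq_iff, vt_eq_iff, vt_eq_iff, vt_eq_iff, cls_fac_iff, cls_fac_iff,
    cls_fac_iff, cls_fac_iff]
  rcases h with h | h
  · left
    refine ⟨Or.inl fun a ha => h a (by omega), Or.inl fun a ha => ?_⟩
    have := h (a + 1) (by omega)
    rw [show s + 1 + a = s + (a + 1) by omega, show t + 1 + a = t + (a + 1) by omega]
    exact this
  · right
    refine ⟨Or.inr fun a ha => ?_, Or.inr fun a ha => ?_⟩
    · have := h a (by omega)
      rw [← this]
      congr 1
      omega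
    · have := h (a + 1) (by omega)
      rw [show s + 1 + a = s + (a + 1) by omega, ← this]
      congr 1
      omega

open Classical in
/-- endpoints of an edge class -/
noncomputable def phi (u : ℕ → α) (m : ℕ) (ε : Sym2 (List α)) : Sym2 ↥(V u m) :=
  if h : ∃ t, cls (fac u t (m + 1)) = ε then s(vt u m (Nat.find h), vt u m (Nat.find h + 1))
  else s(vt u m 0, vt u m 0)

theorem phi_cls (u : ℕ → α) (m t : ℕ) :
    phi u m (cls (fac u t (m + 1))) = s(vt u m t, vt u m (t + 1)) := by
  classical
  have h : ∃ s, cls (fac u s (m + 1)) = cls (fac u t (m + 1)) := ⟨t, rfl⟩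
  unfold phi
  rw [dif_pos h]
  exact edge_ends (Nat.find_spec h)

theorem nonpal_of_ne {u : ℕ → α} {m t : ℕ} (h : vt u m t ≠ vt u m (t + 1)) :
    ¬ PalI u t (t + (m + 1)) := by
  intro hp
  apply h
  rw [vt_eq_iff, cls_fac_iff]
  right
  intro a ha
  rw [hp (t + a) (by omega) (by omega)]
  congr 1
  omega

theorem edge_mem {u : ℕ → α} {m t : ℕ} (h : vt u m t ≠ vt u m (t + 1)) :
    cls (fac u t (m + 1)) ∈ Ed u m :=
  mem_Ed.2 ⟨t, nonpal_of_ne h, rfl⟩

open Classical in
theorem edgeSet_sub (u : ℕ → α) (m : ℕ) :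
    (G u m).edgeSet ⊆ (((Ed u m).image (phi u m) : Finset (Sym2 ↥(V u m))) : Set _) := by
  intro e he
  unfold G at he
  rw [SimpleGraph.edgeSet_fromEdgeSet] at he
  obtain ⟨⟨t, ht⟩, hd⟩ := he
  have ht' : s(vt u m t, vt u m (t + 1)) = e := ht
  have hne : vt u m t ≠ vt u m (t + 1) := by
    intro h
    apply hd
    rw [← ht']
    exact Sym2.mk_isDiag_iff.2 h
  rw [Finset.mem_coe, Finset.mem_image]
  exact ⟨_, edge_mem hne, by rw [phi_cls, ht']⟩

theorem tree_of_card {u : ℕ → α} {m : ℕ} (hc : (V u m).card = (Ed u m).card + 1) :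
    (G u m).IsTree ∧ Set.InjOn (phi u m) (Ed u m : Set (Sym2 (List α))) := by
  classical
  have h1 : Nat.card ↥(V u m) = (V u m).card := by simp
  have h2 := (G_conn u m).card_vert_le_card_edgeSet_add_one
  have h3 : Nat.card (G u m).edgeSet ≤ ((Ed u m).image (phi u m)).card := by
    rw [Nat.card_coe_set_eq, ← Set.ncard_coe_finset]
    exact Set.ncard_le_ncard (edgeSet_sub u m) (Finset.finite_toSet _)
  have h4 : ((Ed u m).image (phi u m)).card ≤ (Ed u m).card := Finset.card_image_le
  refine ⟨SimpleGraph.isTree_iff_connected_and_card.2 ⟨G_conn u m, by omega⟩, ?_⟩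
  exact Finset.card_image_iff.1 (by omega)

/-- in a tree a closed walk which does not return to its base point in between uses the same edge
first and last -/
theorem walk_tree {u : ℕ → α} {m : ℕ} (hc : (V u m).card = (Ed u m).card + 1) {t0 t1 : ℕ}
    (h01 : t0 + 1 < t1) (hY : vt u m t1 = vt u m t0)
    (hno : ∀ t, t0 < t → t < t1 → vt u m t ≠ vt u m t0) :
    cls (fac u t0 (m + 1)) = cls (fac u (t1 - 1) (m + 1)) := by
  classical
  obtain ⟨htree, hinj⟩ := tree_of_card hc
  obtain ⟨k, rfl⟩ : ∃ k, t1 = k + 1 := ⟨t1 - 1, by omega⟩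
  rw [show k + 1 - 1 = k by omega]
  have n0 : vt u m t0 ≠ vt u m (t0 + 1) := (hno (t0 + 1) (by omega) h01).symm
  have n1 : vt u m k ≠ vt u m (k + 1) := by
    rw [hY]; exact hno k (by omega) (by omega)
  refine hinj (edge_mem n0) (edge_mem n1) ?_
  rw [phi_cls, phi_cls, hY]
  -- suffices the two neighbours coincide
  by_contra hne
  have hAB : vt u m (t0 + 1) ≠ vt u m k := by
    intro h
    apply hne
    rw [h]
    exact Sym2.eq_swap
  have hadj : (G u m).Adj (vt u m t0) (vt u m (t0 + 1)) := G_adj n0
  have hbr := SimpleGraph.isAcyclic_iff_forall_adj_isBridge.1 htree.isAcyclic hadj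
  rw [SimpleGraph.isBridge_iff] at hbr
  apply hbr
  have key : ∀ j, t0 + 1 + j ≤ k →
      ((G u m).deleteEdges {s(vt u m t0, vt u m (t0 + 1))}).Reachable
        (vt u m (t0 + 1)) (vt u m (t0 + 1 + j)) := by
    intro j
    induction j with
    | zero => intro _; exact SimpleGraph.Reachable.refl _
    | succ j ih =>
      intro hj
      have ih' := ih (by omega)
      by_cases h : vt u m (t0 + 1 + j) = vt u m (t0 + 1 + (j + 1))
      · rw [← h]; exact ih'
      · refine ih'.trans (SimpleGraph.Adj.reachable ?_)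
        rw [SimpleGraph.deleteEdges_adj]
        refine ⟨G_adj h, ?_⟩
        rw [Set.mem_singleton_iff, Sym2.eq_iff]
        rintro (⟨h1, _⟩ | ⟨_, h1⟩)
        · exact hno _ (by omega) (by omega) h1
        · exact hno _ (by omega) (by omega) h1
  have h1 := key (k - (t0 + 1)) (by omega)
  rw [show t0 + 1 + (k - (t0 + 1)) = k by omega] at h1
  have h2 : ((G u m).deleteEdges {s(vt u m t0, vt u m (t0 + 1))}).Adj
      (vt u m k) (vt u m (k + 1)) := by
    rw [SimpleGraph.deleteEdges_adj]
    refine ⟨G_adj n1, ?_⟩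
    rw [Set.mem_singleton_iff, Sym2.eq_iff]
    rintro (⟨h1, _⟩ | ⟨h1, _⟩)
    · exact hno _ (by omega) (by omega) h1
    · exact hAB h1.symm
  rw [hY] at h2
  exact (h1.trans h2.reachable).symm

end tree

/-- if `T(n) = 0` for all `n ≥ N`, complete return words of palindromes of length at least `N`
are palindromes -/
theorem hk_of_T [Finite α] {u : ℕ → α} (hrev : ClosedRev u) {N : ℕ}
    (hT : ∀ n, N ≤ n → T u n = 0) : HK u N := by
  classical
  intro i m0 hNm hpal i' hi he hno
  by_contra hcon
  have hex : ∃ b, b < i' + m0 - i ∧ u (i + b) ≠ u (i' + m0 - 1 - b) := by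
    unfold PalI at hcon
    push Not at hcon
    obtain ⟨a, ha1, ha2, ha3⟩ := hcon
    refine ⟨a - i, by omega, ?_⟩
    rw [show i + (a - i) = a by omega, show i' + m0 - 1 - (a - i) = i + (i' + m0) - 1 - a by omega]
    exact ha3
  obtain ⟨hm_lt, hm_ne⟩ := Nat.find_spec hex
  have hmin : ∀ b < Nat.find hex, u (i + b) = u (i' + m0 - 1 - b) := by
    intro b hb
    have := Nat.find_min hex hb
    push Not at this
    exact this (by omega)
  set m := Nat.find hex with hmdef
  have hm0 : m0 ≤ m := by
    by_contra hlt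
    push Not at hlt
    apply hm_ne
    rw [hpal (i + m) (by omega) (by omega)]
    have := he (m0 - 1 - m) (by omega)
    rw [show i + (i + m0) - 1 - (i + m) = i + (m0 - 1 - m) by omega, this]
    congr 1
    omega
  have h2m : 2 * m + 2 ≤ i' + m0 - i := by
    by_contra hlt
    push Not at hlt
    rcases Nat.lt_or_ge (i' + m0 - i - 1 - m) m with h | h
    · have := hmin _ h
      apply hm_ne
      rw [show i' + m0 - 1 - m = i + (i' + m0 - i - 1 - m) by omega, this]
      congr 1
      omega
    · apply hm_ne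
      congr 1
      omega
  have hcard : (V u m).card = (Ed u m).card + 1 := by
    have h1 := hT m (by omega)
    rw [T_eq hrev] at h1
    omega
  have hY : vt u m (i' + m0 - m) = vt u m i := by
    rw [vt_eq_iff, cls_fac_iff]
    right
    intro a ha
    rw [hmin (m - 1 - a) (by omega)]
    congr 1
    omega
  have hne : ∀ t, i < t → t < i' + m0 - m → vt u m t ≠ vt u m i := by
    intro t ht1 ht2 h
    rw [vt_eq_iff, cls_fac_iff] at h
    rcases h with h | h
    · exact hno t ht1 (by omega) fun a ha => (h a (by omega)).symm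
    · refine hno (t + (m - m0)) (by omega) (by omega) fun a ha => ?_
      have := h (m - m0 + a) (by omega)
      rw [show t + (m - m0) + a = t + (m - m0 + a) by omega, ← this,
        hpal (i + a) (by omega) (by omega)]
      congr 1
      omega
  have hfin := walk_tree hcard (t0 := i) (t1 := i' + m0 - m) (by omega) hY hne
  rw [cls_fac_iff] at hfin
  apply hm_ne
  rcases hfin with h | h
  · rcases Nat.eq_zero_or_pos m with hz | hpos
    · have := h 0 (by omega)
      rw [hz]
      rw [hz] at this
      exact this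
    · have h1 := h 0 (by omega)
      have h2 := h m (by omega)
      have h3 := hmin 0 hpos
      rw [h2, show i' + m0 - m - 1 + m = i' + m0 - 1 - 0 by omega, ← h3, h1]
      congr 1
      omega
  · have := h m (by omega)
    rw [← this]
    congr 1
    omega

theorem palSet_finite (w : List α) : {x | x <:+: w ∧ x.reverse = x}.Finite := by
  classical
  refine (List.finite_toSet w.sublists).subset ?_
  intro x hx
  exact List.mem_sublists.2 hx.1.sublist

theorem infix_fac_iff (u : ℕ → α) (n : ℕ) (x : List α) :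
    x <:+: fac u 0 n ↔ ∃ b, b + x.length ≤ n ∧ x = fac u b x.length := by
  constructor
  · rintro ⟨s, t, h⟩
    have hl := congrArg List.length h
    rw [fac_length, List.length_append, List.length_append] at hl
    refine ⟨s.length, by omega, ?_⟩
    have h1 := fac_drop_take u 0 n s.length x.length (by omega)
    rw [← h, Nat.zero_add] at h1
    rw [← h1, List.append_assoc, List.drop_left, List.take_left]
  · rintro ⟨b, hb, hx⟩
    have h1 := fac_drop_take u 0 n b x.length hb
    rw [Nat.zero_add, ← hx] at h1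
    rw [← h1]
    exact (List.take_prefix _ _).isInfix.trans (List.drop_suffix _ _).isInfix

theorem palFactors_succ {u : ℕ → α} {K n : ℕ} (hU : UO u K (n + 1)) :
    palFactors (fac u 0 n) + 1 ≤ palFactors (fac u 0 (n + 1)) := by
  obtain ⟨a, ha, hp, hno⟩ := hU
  have haE : a ≤ n + 1 := by omega
  unfold palFactors
  apply Nat.succ_le_of_lt
  apply Set.ncard_lt_ncard _ (palSet_finite _)
  refine ⟨?_, ?_⟩
  · rintro x ⟨hx, hx'⟩
    rw [infix_fac_iff] at hx
    obtain ⟨b, hb, hx⟩ := hx
    refine ⟨?_, hx'⟩
    rw [infix_fac_iff]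
    exact ⟨b, by omega, hx⟩
  · intro hsub
    have hmem : fac u a (n + 1 - a) ∈ {x | x <:+: fac u 0 (n + 1) ∧ x.reverse = x} := by
      refine ⟨?_, ?_⟩
      · rw [infix_fac_iff, fac_length]
        exact ⟨a, by omega, rfl⟩
      · rw [fac_rev_iff, show a + (n + 1 - a) = n + 1 by omega]
        exact hp
    have h2 := (hsub hmem).1
    rw [infix_fac_iff, fac_length] at h2
    obtain ⟨b, hb, he⟩ := h2
    exact hno b (by omega) ((fac_eq_iff u b a _).1 he.symm)

theorem defect_lt_top {u : ℕ → α} {K N1 : ℕ} (hU : ∀ E, N1 ≤ E → UO u K E) : defect u < ⊤ := by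
  have key : ∀ n, n + 1 - palFactors (fac u 0 n) ≤ N1 + 1 := by
    intro n
    rcases Nat.lt_or_ge n N1 with h | h
    · omega
    · induction n, h using Nat.le_induction with
      | base => omega
      | succ n hn ih =>
        have := palFactors_succ (hU (n + 1) (by omega))
        omega
  refine lt_of_le_of_lt (b := ((N1 + 1 : ℕ) : ℕ∞)) ?_ (ENat.natCast_lt_top _)
  unfold defect
  exact iSup_le fun n => by exact_mod_cast key n

/-- eventually vanishing `T` forces: long prefixes have a palindromic suffix occurring only once -/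
theorem UO_of_T [Finite α] {u : ℕ → α} (hrev : ClosedRev u)
    (hinf : {w | w ∈ lang u ∧ w.reverse = w}.Infinite) {N : ℕ}
    (hT : ∀ n, N ≤ n → T u n = 0) : ∃ N1, ∀ E, N1 ≤ E → UO u N E :=
  main_UO (hk_of_T hrev hT) (mark_of_inf hrev hinf N)

/-- the longest palindromic suffix is the one starting first -/
theorem lps_of_UO {u : ℕ → α} {K E : ℕ} (hU : UO u K E) :
    ∃ p : List α, p <:+ fac u 0 E ∧ p.reverse = p ∧
      (∀ q : List α, q <:+ fac u 0 E → q.reverse = q → q.length ≤ p.length) ∧
      occ p (fac u 0 E) = {(fac u 0 E).length - p.length} := by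
  classical
  obtain ⟨a, ha, hp, hno⟩ := hU
  have hex : ∃ c, c ≤ E ∧ PalI u c E := ⟨a, by omega, hp⟩
  obtain ⟨h1, h2⟩ := Nat.find_spec hex
  have hmin : ∀ c, c < Nat.find hex → ¬ (c ≤ E ∧ PalI u c E) := fun c hc => Nat.find_min hex hc
  have hle : Nat.find hex ≤ a := Nat.find_min' hex ⟨by omega, hp⟩
  set c := Nat.find hex
  have hsuf : ∀ d, d ≤ E → (fac u 0 E).drop d = fac u d (E - d) := by
    intro d hd
    have := fac_drop_take u 0 E d (E - d) (by omega)
    rw [Nat.zero_add] at this
    rw [← this, List.take_of_length_le]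
    rw [List.length_drop, fac_length]
  refine ⟨fac u c (E - c), ?_, ?_, ?_, ?_⟩
  · rw [← hsuf c h1]; exact List.drop_suffix _ _
  · rw [fac_rev_iff, show c + (E - c) = E by omega]; exact h2
  · intro q hq hqr
    have hlen := hq.length_le
    rw [fac_length] at hlen
    rw [List.suffix_iff_eq_drop, fac_length, hsuf _ (by omega)] at hq
    rw [fac_length]
    by_contra hcon
    push Not at hcon
    rw [hq, fac_rev_iff] at hqr
    refine hmin (E - q.length) (by omega) ⟨by omega, ?_⟩
    rwa [show E - q.length + (E - (E - q.length)) = E by omega] at hqr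
  · ext j
    simp only [occ, fac_length, Set.mem_ofPred_eq, Set.mem_singleton_iff]
    constructor
    · rintro ⟨h3, h4⟩
      by_contra hne
      rw [fac_drop_take u 0 E j _ h3, fac_eq_iff, Nat.zero_add] at h4
      refine hno (j + (a - c)) (by omega) fun x hx => ?_
      have := h4 (a - c + x) (by omega)
      rw [show j + (a - c) + x = j + (a - c + x) by omega, this]
      congr 1
      omega
    · intro h3
      refine ⟨by omega, ?_⟩
      rw [fac_drop_take u 0 E j _ (by omega), show 0 + j = c by omega]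

end Pool.Agent.R406.Pal
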