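import Pool.Agent.R406.WSDefs

/-! # The word `ABB` in two-dimensional grids: the upper bound `2` -/

namespace Pool.Agent.R406.WS

/-- indicator of `A B B`, where `true` stands for `A` -/
def m3 (a b c : Bool) : ℤ := if a && !b && !c then 1 else 0

/-- the potential on `3 × 2` windows -/
def phi (a b c d e f : Bool) : ℤ :=
  ([0, -1, 1, 0, 2, 1, 2, 3, -2, -2, -1, -3, 0, 0, 0, 0, -1, 2, 0, 3, 1, 4, 3, 4, -2, -2, -3, -3, 0,
    0, 0, -1, 1, 0, -2, -3, 2, 3, 2, 3, -1, -3, -4, -4, 0, 0, 0, 1, 0, 3, -3, 0, 3, 4, 3, 0, -3, -3,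
    -4, 0, 0, -1, 1, 0] : List ℤ).getD
    (a.toNat + 2 * b.toNat + 4 * c.toNat + 8 * d.toNat + 16 * e.toNat + 32 * f.toNat) 0

/-- number of occurrences of `A B B` centred at the middle cell of a `3 × 3` window -/
def val (a b c d e f g h i : Bool) : ℤ :=
  m3 a e i + m3 i e a + m3 b e h + m3 h e b + m3 c e g + m3 g e c + m3 d e f + m3 f e d

theorem cert : ∀ a b c d e f g h i : Bool,
    4 * val a b c d e f g h i ≤
      8 + phi a b d e g h - phi b c e f h i + phi a d b e c f - phi d g e h f i := by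
  decide

section

variable {n : Fin 2 → ℕ}

/-- translation by `(r, c)` -/
def T (r c : ℤ) (p : Box n) : Box n := fun j => p j + ((![r, c] j : ℤ) : ZMod (n j))

theorem T_T (r c r' c' : ℤ) (p : Box n) : T r c (T r' c' p) = T (r + r') (c + c') p := by
  funext j
  fin_cases j
  · simp [T]; ring
  · simp [T]; ring

theorem T_zero (p : Box n) : T 0 0 p = p := by
  funext j
  fin_cases j <;> simp [T]

theorem step_zero (p : Box n) (v : Fin 2 → ℤ) : step p 0 v = p := by
  funext j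
  simp [step]

theorem step_eq (p : Box n) (i : ℕ) (r c : ℤ) : step p i ![r, c] = T (i * r) (i * c) p := by
  funext j
  fin_cases j <;> simp [step, T]

variable [∀ i, NeZero (n i)]

theorem sum_T (r c : ℤ) (F : Box n → ℤ) : ∑ p, F (T r c p) = ∑ p, F p := by
  have := Equiv.sum_comp (Equiv.addRight (fun j => ((![r, c] j : ℤ) : ZMod (n j)))) F
  rw [← this]
  rfl

theorem dirs_two : dirs 2 = {![1, 1], ![-1, -1], ![1, 0], ![-1, 0], ![1, -1], ![-1, 1],
    ![0, 1], ![0, -1]} := by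
  decide

variable {α : Type*}

open Classical in
theorem card_appearances (w : List α) (Γ : Box n → α) :
    ((appearances w Γ).card : ℤ) = ∑ v ∈ dirs 2, ∑ p : Box n,
      if (∀ (i : ℕ) (hi : i < w.length), Γ (step p i v) = w[i]) then (1 : ℤ) else 0 := by
  unfold appearances
  rw [Finset.card_filter]
  push_cast
  rw [Finset.sum_product_right]

open Classical in
theorem dir_bound {A B : α} (hAB : A ≠ B) (Γ : Box n → α) (r c : ℤ) :
    (∑ p : Box n, if (∀ (i : ℕ) (hi : i < [A, B, B].length), Γ (step p i ![r, c]) = [A, B, B][i])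
      then (1 : ℤ) else 0) ≤
    ∑ q : Box n, m3 (decide (Γ (T (-r) (-c) q) = A)) (decide (Γ q = A))
      (decide (Γ (T r c q) = A)) := by
  rw [← sum_T (-r) (-c)]
  apply Finset.sum_le_sum
  intro q _
  split_ifs with h
  · have h0 := h 0 (by simp)
    have h1 := h 1 (by simp)
    have h2 := h 2 (by simp)
    rw [step_eq, T_T] at h0 h1 h2
    simp only [Nat.cast_zero, zero_mul, zero_add, List.getElem_cons_zero] at h0
    simp only [Nat.cast_one, one_mul, add_neg_cancel, T_zero, List.getElem_cons_succ,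
      List.getElem_cons_zero] at h1
    simp only [Nat.cast_ofNat, List.getElem_cons_succ, List.getElem_cons_zero] at h2
    rw [show (2 : ℤ) * r + -r = r by ring, show (2 : ℤ) * c + -c = c by ring] at h2
    rw [h0, h1, h2]
    have hBA : ¬ (B = A) := fun h => hAB h.symm
    simp [m3, hBA]
  · unfold m3
    split_ifs <;> norm_num

open Classical in
theorem count_bound {A B : α} (hAB : A ≠ B) (Γ : Box n → α) :
    ((appearances [A, B, B] Γ).card : ℤ) ≤ 2 * (Fintype.card (Box n) : ℤ) := by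
  rw [card_appearances, dirs_two]
  set χ : Box n → Bool := fun p => decide (Γ p = A) with hχ
  have hsum : ∀ F : (Fin 2 → ℤ) → ℤ, ∑ v ∈ ({![1, 1], ![-1, -1], ![1, 0], ![-1, 0], ![1, -1],
      ![-1, 1], ![0, 1], ![0, -1]} : Finset (Fin 2 → ℤ)), F v =
      F ![1, 1] + F ![-1, -1] + F ![1, 0] + F ![-1, 0] + F ![1, -1] + F ![-1, 1] + F ![0, 1] +
        F ![0, -1] := by
    intro F
    rw [Finset.sum_insert (by decide), Finset.sum_insert (by decide),
      Finset.sum_insert (by decide), Finset.sum_insert (by decide), Finset.sum_insert (by decide),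
      Finset.sum_insert (by decide), Finset.sum_insert (by decide), Finset.sum_singleton]
    ring
  rw [hsum]
  have hd := fun r c => dir_bound hAB Γ r c
  have key : ∀ q : Box n, 4 * val (χ (T (-1) (-1) q)) (χ (T (-1) 0 q)) (χ (T (-1) 1 q))
      (χ (T 0 (-1) q)) (χ q) (χ (T 0 1 q)) (χ (T 1 (-1) q)) (χ (T 1 0 q)) (χ (T 1 1 q)) ≤
      8 + phi (χ (T (-1) (-1) q)) (χ (T (-1) 0 q)) (χ (T 0 (-1) q)) (χ q) (χ (T 1 (-1) q))
        (χ (T 1 0 q)) -
        phi (χ (T (-1) 0 q)) (χ (T (-1) 1 q)) (χ q) (χ (T 0 1 q)) (χ (T 1 0 q)) (χ (T 1 1 q)) +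
        phi (χ (T (-1) (-1) q)) (χ (T 0 (-1) q)) (χ (T (-1) 0 q)) (χ q) (χ (T (-1) 1 q))
          (χ (T 0 1 q)) -
        phi (χ (T 0 (-1) q)) (χ (T 1 (-1) q)) (χ q) (χ (T 1 0 q)) (χ (T 0 1 q)) (χ (T 1 1 q)) :=
    fun q => cert _ _ _ _ _ _ _ _ _
  have hs := Finset.sum_le_sum (s := (Finset.univ : Finset (Box n))) fun q _ => key q
  simp only [Finset.sum_add_distrib, Finset.sum_sub_distrib, ← Finset.mul_sum] at hs
  have e1 : ∑ q : Box n, phi (χ (T (-1) 0 q)) (χ (T (-1) 1 q)) (χ q) (χ (T 0 1 q)) (χ (T 1 0 q))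
      (χ (T 1 1 q)) = ∑ q : Box n, phi (χ (T (-1) (-1) q)) (χ (T (-1) 0 q)) (χ (T 0 (-1) q)) (χ q)
        (χ (T 1 (-1) q)) (χ (T 1 0 q)) := by
    rw [← sum_T 0 1 (fun q => phi (χ (T (-1) (-1) q)) (χ (T (-1) 0 q)) (χ (T 0 (-1) q)) (χ q)
        (χ (T 1 (-1) q)) (χ (T 1 0 q)))]
    apply Finset.sum_congr rfl
    intro q _
    simp only [T_T]
    norm_num [T_zero]
  have e2 : ∑ q : Box n, phi (χ (T 0 (-1) q)) (χ (T 1 (-1) q)) (χ q) (χ (T 1 0 q)) (χ (T 0 1 q))
      (χ (T 1 1 q)) = ∑ q : Box n, phi (χ (T (-1) (-1) q)) (χ (T 0 (-1) q)) (χ (T (-1) 0 q)) (χ q)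
        (χ (T (-1) 1 q)) (χ (T 0 1 q)) := by
    rw [← sum_T 1 0 (fun q => phi (χ (T (-1) (-1) q)) (χ (T 0 (-1) q)) (χ (T (-1) 0 q)) (χ q)
        (χ (T (-1) 1 q)) (χ (T 0 1 q)))]
    apply Finset.sum_congr rfl
    intro q _
    simp only [T_T]
    norm_num [T_zero]
  rw [e1, e2] at hs
  unfold val at hs
  simp only [Finset.sum_add_distrib] at hs
  have h1 := hd 1 1
  have h2 := hd (-1) (-1)
  have h3 := hd 1 0
  have h4 := hd (-1) 0
  have h5 := hd 1 (-1)
  have h6 := hd (-1) 1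
  have h7 := hd 0 1
  have h8 := hd 0 (-1)
  simp only [neg_neg, neg_zero] at h1 h2 h3 h4 h5 h6 h7 h8
  have hc : ∑ _q : Box n, (8 : ℤ) = 8 * (Fintype.card (Box n) : ℤ) := by
    rw [Finset.sum_const, Finset.card_univ, nsmul_eq_mul, mul_comm]
  rw [hc] at hs
  linarith

theorem conc_le {A B : α} (hAB : A ≠ B) (Γ : Box n → α) : conc [A, B, B] Γ ≤ 2 := by
  have h := count_bound hAB Γ
  have hpos : (0 : ℝ) < (Fintype.card (Box n) : ℝ) := by
    exact_mod_cast Fintype.card_pos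
  unfold conc
  rw [div_le_iff₀ hpos]
  exact_mod_cast h

end

end Pool.Agent.R406.WS
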