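import Mathlib

/-! # Word searches in toroidal grids: definitions -/

namespace Pool.Agent.R406.WS

/-- the toroidal box `∏ ℤ/n_i` -/
abbrev Box {d : ℕ} (n : Fin d → ℕ) : Type := ∀ i, ZMod (n i)

/-- the directions `{-1, 0, 1}^d ∖ {0}` -/
def dirs (d : ℕ) : Finset (Fin d → ℤ) :=
  (Fintype.piFinset fun _ => ({-1, 0, 1} : Finset ℤ)).filter fun v => v ≠ 0

/-- the cell `p + i v` -/
def step {d : ℕ} {n : Fin d → ℕ} (p : Box n) (i : ℕ) (v : Fin d → ℤ) : Box n :=
  fun j => p j + (((i : ℤ) * v j : ℤ) : ZMod (n j))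

open Classical in
/-- the appearances of the word `w` in the grid `Γ`: the pairs `(p, v)` of a cell and a direction
such that the letters `Γ (p + i v)`, `i = 0, …, ℓ - 1`, are the letters of `w` in order -/
noncomputable def appearances {d : ℕ} {n : Fin d → ℕ} [∀ i, NeZero (n i)] {α : Type*}
    (w : List α) (Γ : Box n → α) : Finset (Box n × (Fin d → ℤ)) :=
  (Finset.univ ×ˢ dirs d).filter fun q => ∀ (i : ℕ) (hi : i < w.length), Γ (step q.1 i q.2) = w[i]

/-- the concentration `c_d(w, Γ)`: the number of appearances divided by the number of cells -/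
noncomputable def conc {d : ℕ} {n : Fin d → ℕ} [∀ i, NeZero (n i)] {α : Type*}
    (w : List α) (Γ : Box n → α) : ℝ :=
  ((appearances w Γ).card : ℝ) / (Fintype.card (Box n) : ℝ)

/-- `C_d(w)`: the supremum of the concentrations of `w` in all `d`-dimensional grids -/
noncomputable def maxConc (d : ℕ) {α : Type*} (w : List α) : ℝ :=
  sSup {c : ℝ | ∃ (n : Fin d → ℕ) (_ : ∀ i, NeZero (n i)) (Γ : Box n → α), c = conc w Γ}

open Classical in
/-- the letter distribution `h_Γ` of a grid -/
noncomputable def letterDist {d : ℕ} {n : Fin d → ℕ} [∀ i, NeZero (n i)] {α : Type*}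
    (Γ : Box n → α) (a : α) : ℝ :=
  ((Finset.univ.filter fun p => Γ p = a).card : ℝ) / (Fintype.card (Box n) : ℝ)

/-- letter distributions: functions with values in `[0,1]`, finite support and sum `1` -/
def IsLetterDistribution {α : Type*} (h : α → ℝ) : Prop :=
  (∀ a, 0 ≤ h a ∧ h a ≤ 1) ∧ (Function.support h).Finite ∧ ∑ᶠ a, h a = 1

/-- the total variation distance `(1/2) ∑ |h₁ - h₂|` -/
noncomputable def tv {α : Type*} (h₁ h₂ : α → ℝ) : ℝ := (1 / 2) * ∑ᶠ a, |h₁ a - h₂ a|

end Pool.Agent.R406.WS
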