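import Pool.Agent.R406.WSBound

/-! # Two grids for the word `ABB` -/

namespace Pool.Agent.R406.WS

section

set_option linter.unusedSectionVars false

variable {n : Fin 2 → ℕ} [∀ i, NeZero (n i)] {α : Type*}

open Classical in
/-- the grid with `A` where `b` holds and `B` elsewhere -/
noncomputable def mkG (A B : α) (b : Box n → Bool) : Box n → α := fun p => if b p then A else B

theorem mkG_A {A B : α} (hAB : A ≠ B) (b : Box n → Bool) (p : Box n) :
    mkG A B b p = A ↔ b p = true := by
  unfold mkG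
  split_ifs with h
  · simp [h]
  · simp [h, hAB.symm]

theorem mkG_B {A B : α} (hAB : A ≠ B) (b : Box n → Bool) (p : Box n) :
    mkG A B b p = B ↔ b p = false := by
  unfold mkG
  split_ifs with h
  · simp [h, hAB]
  · simp [h]

theorem sum_box (F : Box n → ℤ) :
    ∑ p : Box n, F p = ∑ x : ZMod (n 0), ∑ y : ZMod (n 1),
      F ((piFinTwoEquiv fun i => ZMod (n i)).symm (x, y)) := by
  rw [← Equiv.sum_comp (piFinTwoEquiv fun i => ZMod (n i)).symm, Fintype.sum_prod_type]

theorem card_mkG {A B : α} (hAB : A ≠ B) (b : Box n → Bool) :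
    ((appearances [A, B, B] (mkG A B b)).card : ℤ) = ∑ v ∈ dirs 2, ∑ x : ZMod (n 0),
      ∑ y : ZMod (n 1), if (b (step ((piFinTwoEquiv fun i => ZMod (n i)).symm (x, y)) 0 v) &&
        !b (step ((piFinTwoEquiv fun i => ZMod (n i)).symm (x, y)) 1 v) &&
        !b (step ((piFinTwoEquiv fun i => ZMod (n i)).symm (x, y)) 2 v)) then (1 : ℤ) else 0 := by
  rw [card_appearances]
  apply Finset.sum_congr rfl
  intro v _
  rw [sum_box]
  apply Finset.sum_congr rfl
  intro x _
  apply Finset.sum_congr rfl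
  intro y _
  congr 1
  rw [eq_iff_iff]
  constructor
  · intro h
    have h0 := (mkG_A hAB b _).1 (h 0 (by simp))
    have h1 := (mkG_B hAB b _).1 (h 1 (by simp))
    have h2 := (mkG_B hAB b _).1 (h 2 (by simp))
    rw [h0, h1, h2]
    rfl
  · intro h
    simp only [Bool.and_eq_true, Bool.not_eq_true'] at h
    intro i hi
    simp only [List.length_cons, List.length_nil] at hi
    interval_cases i
    · exact (mkG_A hAB b _).2 h.1.1
    · exact (mkG_B hAB b _).2 h.1.2
    · exact (mkG_B hAB b _).2 h.2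

theorem dist_A {A B : α} (hAB : A ≠ B) (b : Box n → Bool) :
    letterDist (mkG A B b) A = ((∑ x : ZMod (n 0), ∑ y : ZMod (n 1),
      (if b ((piFinTwoEquiv fun i => ZMod (n i)).symm (x, y)) then (1 : ℤ) else 0) : ℤ) : ℝ) /
        (Fintype.card (Box n) : ℝ) := by
  classical
  unfold letterDist
  congr 1
  rw [← sum_box (fun p => if b p then (1 : ℤ) else 0)]
  rw [← Int.cast_natCast, Finset.card_filter]
  congr 1
  push_cast
  apply Finset.sum_congr rfl
  intro p _
  congr 1
  rw [eq_iff_iff]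
  exact mkG_A hAB b p

theorem dist_B {A B : α} (hAB : A ≠ B) (b : Box n → Bool) :
    letterDist (mkG A B b) B = ((∑ x : ZMod (n 0), ∑ y : ZMod (n 1),
      (if b ((piFinTwoEquiv fun i => ZMod (n i)).symm (x, y)) then (0 : ℤ) else 1) : ℤ) : ℝ) /
        (Fintype.card (Box n) : ℝ) := by
  classical
  unfold letterDist
  congr 1
  rw [← sum_box (fun p => if b p then (0 : ℤ) else 1)]
  rw [← Int.cast_natCast, Finset.card_filter]
  congr 1
  push_cast
  apply Finset.sum_congr rfl
  intro p _
  have h := mkG_B hAB b p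
  by_cases hb : b p = true
  · rw [if_neg, if_pos hb]
    rw [h, hb]; simp
  · rw [Bool.not_eq_true] at hb
    rw [if_pos (h.2 hb), hb]
    rfl

theorem dist_other {A B : α} (b : Box n → Bool) {a : α} (h1 : a ≠ A) (h2 : a ≠ B) :
    letterDist (mkG A B b) a = 0 := by
  classical
  unfold letterDist
  rw [Finset.filter_eq_empty_iff.2]
  · simp
  · intro p _
    unfold mkG
    split_ifs
    · exact fun h => h1 h.symm
    · exact fun h => h2 h.symm

end

/-- sizes of the first grid -/
def n1 : Fin 2 → ℕ := ![1, 3]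

/-- sizes of the second grid -/
def n2 : Fin 2 → ℕ := ![4, 8]

instance inst1 : ∀ i, NeZero (n1 i) := fun i => ⟨by fin_cases i <;> decide⟩

instance inst2 : ∀ i, NeZero (n2 i) := fun i => ⟨by fin_cases i <;> decide⟩

/-- the first grid: stripes of period `3` -/
def b1 (p : Box n1) : Bool := (p 1).val == 0

/-- the second grid -/
def b2 (p : Box n2) : Bool :=
  ([true, false, false, true, false, false, true, true] : List Bool).getD
    (((p 1).val + 6 * (p 0).val) % 8) false

theorem count1 : (∑ v ∈ dirs 2, ∑ x : ZMod (n1 0),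
      ∑ y : ZMod (n1 1), if (b1 (step ((piFinTwoEquiv fun i => ZMod (n1 i)).symm (x, y)) 0 v) &&
        !b1 (step ((piFinTwoEquiv fun i => ZMod (n1 i)).symm (x, y)) 1 v) &&
        !b1 (step ((piFinTwoEquiv fun i => ZMod (n1 i)).symm (x, y)) 2 v)) then (1 : ℤ) else 0)
        = 6 := by
  rw [dirs_two]
  decide

theorem count2 : (∑ v ∈ dirs 2, ∑ x : ZMod (n2 0),
      ∑ y : ZMod (n2 1), if (b2 (step ((piFinTwoEquiv fun i => ZMod (n2 i)).symm (x, y)) 0 v) &&
        !b2 (step ((piFinTwoEquiv fun i => ZMod (n2 i)).symm (x, y)) 1 v) &&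
        !b2 (step ((piFinTwoEquiv fun i => ZMod (n2 i)).symm (x, y)) 2 v)) then (1 : ℤ) else 0)
        = 56 := by
  rw [dirs_two]
  decide

theorem card1 : Fintype.card (Box n1) = 3 := by decide

theorem card2 : Fintype.card (Box n2) = 32 := by decide

theorem distA1 : (∑ x : ZMod (n1 0), ∑ y : ZMod (n1 1),
      (if b1 ((piFinTwoEquiv fun i => ZMod (n1 i)).symm (x, y)) then (1 : ℤ) else 0)) = 1 := by
  decide

theorem distB1 : (∑ x : ZMod (n1 0), ∑ y : ZMod (n1 1),
      (if b1 ((piFinTwoEquiv fun i => ZMod (n1 i)).symm (x, y)) then (0 : ℤ) else 1)) = 2 := by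
  decide

theorem distA2 : (∑ x : ZMod (n2 0), ∑ y : ZMod (n2 1),
      (if b2 ((piFinTwoEquiv fun i => ZMod (n2 i)).symm (x, y)) then (1 : ℤ) else 0)) = 16 := by
  decide

theorem distB2 : (∑ x : ZMod (n2 0), ∑ y : ZMod (n2 1),
      (if b2 ((piFinTwoEquiv fun i => ZMod (n2 i)).symm (x, y)) then (0 : ℤ) else 1)) = 16 := by
  decide

section

variable {α : Type*} {A B : α}

theorem conc1 (hAB : A ≠ B) : conc [A, B, B] (mkG A B b1) = 2 := by
  have h := card_mkG hAB b1
  rw [count1] at h
  have h' : ((appearances [A, B, B] (mkG A B b1)).card : ℝ) = 6 := by exact_mod_cast h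
  unfold conc
  rw [h', card1]
  norm_num

theorem conc2 (hAB : A ≠ B) : conc [A, B, B] (mkG A B b2) = 7 / 4 := by
  have h := card_mkG hAB b2
  rw [count2] at h
  have h' : ((appearances [A, B, B] (mkG A B b2)).card : ℝ) = 56 := by exact_mod_cast h
  unfold conc
  rw [h', card2]
  norm_num

theorem maxConc_eq (hAB : A ≠ B) : maxConc 2 [A, B, B] = 2 := by
  unfold maxConc
  apply IsGreatest.csSup_eq
  constructor
  · exact ⟨n1, inst1, mkG A B b1, (conc1 hAB).symm⟩
  · rintro c ⟨n, hn, Γ, rfl⟩
    exact conc_le hAB Γ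

theorem tv_lower (hAB : A ≠ B) : tv (letterDist (mkG A B b2)) (letterDist (mkG A B b1)) = 1 / 6 := by
  classical
  unfold tv
  rw [finsum_eq_sum_of_support_subset (s := {A, B})]
  · rw [Finset.sum_pair hAB, dist_A hAB, dist_A hAB, dist_B hAB, dist_B hAB, card1, card2, distA1,
      distB1, distA2, distB2]
    norm_num
  · intro a ha
    simp only [Finset.coe_insert, Finset.coe_singleton, Set.mem_insert_iff,
      Set.mem_singleton_iff]
    by_contra hcon
    push Not at hcon
    apply ha
    change |letterDist (mkG A B b2) a - letterDist (mkG A B b1) a| = 0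
    rw [dist_other b2 hcon.1 hcon.2, dist_other b1 hcon.1 hcon.2]
    simp

theorem eq_of_tv_le_zero {h₁ h₂ : α → ℝ} (hf1 : (Function.support h₁).Finite)
    (hf2 : (Function.support h₂).Finite) (h : tv h₁ h₂ ≤ 0) : h₁ = h₂ := by
  funext a
  have hfin : (Function.support fun a => |h₁ a - h₂ a|).Finite := by
    refine (hf1.union hf2).subset ?_
    intro x hx
    by_contra hcon
    rw [Set.mem_union, not_or] at hcon
    apply hx
    have e1 : h₁ x = 0 := Function.notMem_support.1 hcon.1
    have e2 : h₂ x = 0 := Function.notMem_support.1 hcon.2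
    change |h₁ x - h₂ x| = 0
    rw [e1, e2]
    simp
  have h1 := single_le_finsum a hfin (fun j => abs_nonneg _)
  unfold tv at h
  have h2 : |h₁ a - h₂ a| ≤ 0 := by linarith
  have h3 := abs_nonpos_iff.1 h2
  linarith

theorem supp_letterDist (b : Box n1 → Bool) :
    (Function.support (letterDist (mkG A B b))).Finite := by
  refine (Set.toFinite ({A, B} : Set α)).subset ?_
  intro x hx
  by_contra hcon
  simp only [Set.mem_insert_iff, Set.mem_singleton_iff, not_or] at hcon
  exact hx (dist_other b hcon.1 hcon.2)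

theorem main (hAB : A ≠ B) :
    ¬ ∃ h : α → ℝ, IsLetterDistribution h ∧ ∀ δ : ℝ, 0 ≤ δ → ∀ (n : Fin 2 → ℕ)
      [∀ i, NeZero (n i)] (Γ : Box n → α),
      maxConc 2 [A, B, B] * (1 - δ) ≤ conc [A, B, B] Γ → tv (letterDist Γ) h ≤ δ := by
  rintro ⟨h, ⟨_, hfin, _⟩, hall⟩
  have h1 := hall 0 le_rfl n1 (mkG A B b1) (by rw [maxConc_eq hAB, conc1 hAB]; norm_num)
  have h2 := hall (1 / 8) (by norm_num) n2 (mkG A B b2)
    (by rw [maxConc_eq hAB, conc2 hAB]; norm_num)
  have e := eq_of_tv_le_zero (supp_letterDist b1) hfin h1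
  rw [← e, tv_lower hAB] at h2
  norm_num at h2

end

end Pool.Agent.R406.WS
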